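import Mathlib

/-!
# The character on monic polynomials and its sums
-/

set_option autoImplicit false

namespace Pool.Agent.Lib.MP_6179b0_nt.W

open Polynomial Finset

variable (p : ℕ) [Fact p.Prime]

/-- `X ^ 2 + a X + b` -/
noncomputable def gq (a b : ZMod p) : (ZMod p)[X] := X ^ 2 + C a * X + C b

/-- completely multiplicative function on monic polynomials:
`χ (∏_ρ g(ρ)) ψ (∏_ρ ρ)`, `ρ` running through the roots of `h` -/
noncomputable def Xc (a b : ZMod p) (ψ : DirichletCharacter ℂ p) (h : (ZMod p)[X]) : ℂ :=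
  ((quadraticChar (ZMod p) (resultant h (gq p a b) h.natDegree 2) : ℤ) : ℂ) *
    ψ ((-1) ^ h.natDegree * h.coeff 0)

/-- the monic polynomial with lower coefficients `v` -/
noncomputable def mon (n : ℕ) (v : Fin n → ZMod p) : (ZMod p)[X] :=
  X ^ n + ∑ i : Fin n, C (v i) * X ^ (i : ℕ)

/-- sum of `Xc` over the monic polynomials of degree `n` -/
noncomputable def csum (a b : ZMod p) (ψ : DirichletCharacter ℂ p) (n : ℕ) : ℂ :=
  ∑ v : Fin n → ZMod p, Xc p a b ψ (mon p n v)

open Classical in
/-- sum over the monic irreducible polynomials `P` with `deg P ∣ n` of `deg P * Xc P ^ (n / deg P)` -/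
noncomputable def ssum (a b : ZMod p) (ψ : DirichletCharacter ℂ p) (n : ℕ) : ℂ :=
  ∑ d ∈ n.divisors, ∑ v ∈ (univ : Finset (Fin d → ZMod p)).filter (fun v => Irreducible (mon p d v)),
    (d : ℂ) * Xc p a b ψ (mon p d v) ^ (n / d)

/-- the complete sum over an extension field -/
noncomputable def ext (K : Type) [Field K] [Fintype K] [Algebra (ZMod p) K] (a b : ZMod p)
    (ψ : DirichletCharacter ℂ p) : ℂ :=
  ∑ x : K, ((quadraticChar (ZMod p) (Algebra.norm (ZMod p)
      (x ^ 2 + algebraMap (ZMod p) K a * x + algebraMap (ZMod p) K b)) : ℤ) : ℂ) *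
    ψ (Algebra.norm (ZMod p) x)

end Pool.Agent.Lib.MP_6179b0_nt.W
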