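import Mathlib
import Pool.Agent.Lib.MP_6179b0_nt.W.LDefs

/-!
# Sums over extension fields in terms of irreducible polynomials
-/

set_option autoImplicit false

namespace Pool.Agent.Lib.MP_6179b0_nt.W

open Polynomial Finset

variable (p : ℕ) [Fact p.Prime]

section norm
variable {F L : Type} [Field F] [Finite F] [Field L] [Finite L] [Algebra F L]

open IntermediateField in
/-- the norm of a generator of the extension -/
private theorem LExt_norm_gen (x : L) (G : F[X]) (m : ℕ) (hG : G.natDegree ≤ m) :
    Algebra.norm F (aeval (AdjoinSimple.gen F x) G) =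
      resultant (minpoly F x) G (minpoly F x).natDegree m := by
  classical
  have hfin : FiniteDimensional F L := Module.Finite.of_finite
  have hx : IsIntegral F x := Algebra.IsIntegral.isIntegral x
  set E := AlgebraicClosure F with hE
  apply (algebraMap F E).injective
  have hmon : (minpoly F x).Monic := minpoly.monic hx
  rw [Algebra.norm_eq_prod_embeddings (K := F) (L := F⟮x⟯) E]
  have hsep : (minpoly F x).Separable :=
    PerfectField.separable_of_irreducible (minpoly.irreducible hx)
  have hres := resultant_eq_prod_eval ((minpoly F x).map (algebraMap F E))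
    (G.map (algebraMap F E)) m (natDegree_map_le.trans hG) (IsAlgClosed.splits _)
  rw [resultant_map_map, natDegree_map, (hmon.map _).leadingCoeff, one_pow, one_mul] at hres
  rw [hres]
  rw [Fintype.prod_equiv (algHomAdjoinIntegralEquiv (K := E) F hx)
    (fun σ => σ (aeval (AdjoinSimple.gen F x) G))
    (fun y => eval (y : E) (G.map (algebraMap F E)))]
  · rw [Finset.prod_mem_multiset _ _ (fun y => eval y (G.map (algebraMap F E))) (fun _ => rfl),
      Finset.prod_eq_multiset_prod, Multiset.toFinset_val, Multiset.dedup_eq_self.mpr]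
    exact nodup_roots hsep.map
  · intro σ
    have h1 := algHomAdjoinIntegralEquiv_symm_apply_gen F hx
      (algHomAdjoinIntegralEquiv (K := E) F hx σ)
    rw [Equiv.symm_apply_apply] at h1
    rw [← h1, eval_map_algebraMap, aeval_algHom_apply]

open IntermediateField in
/-- the norm of the value of a polynomial -/
private theorem LExt_norm_aeval (x : L) (G : F[X]) (m : ℕ) (hG : G.natDegree ≤ m) :
    Algebra.norm F (aeval x G) = resultant (minpoly F x) G (minpoly F x).natDegree m ^
      (Module.finrank F L / (minpoly F x).natDegree) := by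
  have hfin : FiniteDimensional F L := Module.Finite.of_finite
  have hx : IsIntegral F x := Algebra.IsIntegral.isIntegral x
  have h1 : aeval x G = algebraMap F⟮x⟯ L (aeval (AdjoinSimple.gen F x) G) := by
    rw [← aeval_algebraMap_apply, AdjoinSimple.algebraMap_gen]
  have h2 : Module.finrank F F⟮x⟯ = (minpoly F x).natDegree := adjoin.finrank hx
  have h3 : Module.finrank F F⟮x⟯ * Module.finrank F⟮x⟯ L = Module.finrank F L :=
    Module.finrank_mul_finrank F F⟮x⟯ L
  have h4 : Module.finrank F L / (minpoly F x).natDegree = Module.finrank F⟮x⟯ L := by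
    rw [← h3, h2, Nat.mul_div_cancel_left _ (minpoly.natDegree_pos hx)]
  rw [h1, ← Algebra.norm_norm (S := F⟮x⟯), Algebra.norm_algebraMap, map_pow, h4,
    LExt_norm_gen x G m hG]

omit [Finite F] in
/-- the number of elements with a given minimal polynomial -/
private theorem LExt_card (P : F[X]) (hP : Irreducible P) (hm : P.Monic)
    (hd : P.natDegree ∣ Module.finrank F L) :
    Nat.card {x : L // minpoly F x = P} = P.natDegree := by
  classical
  have hfin : FiniteDimensional F L := Module.Finite.of_finite
  have : Fact (Irreducible P) := ⟨hP⟩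
  have h1 : Module.finrank F (AdjoinRoot P) = P.natDegree := by
    rw [(AdjoinRoot.powerBasis hP.ne_zero).finrank, AdjoinRoot.powerBasis_dim]
  have h2 := FiniteField.natCard_algHom_of_finrank_dvd (F := F) (K := AdjoinRoot P) (L := L)
    (by rw [h1]; exact hd)
  rw [h1] at h2
  rw [← h2, Nat.card_congr (AdjoinRoot.equiv L F P hP.ne_zero)]
  refine Nat.card_congr (Equiv.subtypeEquivRight fun x => ?_)
  rw [mem_aroots]
  constructor
  · intro h
    refine ⟨hP.ne_zero, ?_⟩
    rw [← h]
    exact minpoly.aeval F x
  · rintro ⟨-, h⟩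
    exact (minpoly.eq_of_irreducible_of_monic hP h hm).symm

end norm

private theorem LExt_mon_monic (n : ℕ) (v : Fin n → ZMod p) : (mon p n v).Monic :=
  monic_X_pow_add (degree_sum_fin_lt v)

private theorem LExt_mon_natDegree (n : ℕ) (v : Fin n → ZMod p) : (mon p n v).natDegree = n := by
  unfold mon
  have h1 := degree_sum_fin_lt v
  have h2 : degree (∑ i : Fin n, C (v i) * X ^ (i : ℕ)) < degree (X ^ n : (ZMod p)[X]) := by
    rw [degree_X_pow]
    exact h1
  rw [natDegree_eq_of_degree_eq (degree_add_eq_left_of_degree_lt h2), natDegree_X_pow]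

private theorem LExt_mon_coeff (n : ℕ) (v : Fin n → ZMod p) (i : Fin n) :
    (mon p n v).coeff i = v i := by
  unfold mon
  rw [coeff_add, coeff_X_pow, if_neg i.2.ne, zero_add, finsetSum_coeff,
    Finset.sum_eq_single i]
  · rw [coeff_C_mul, coeff_X_pow, if_pos rfl, mul_one]
  · intro j _ hj
    rw [coeff_C_mul, coeff_X_pow, if_neg, mul_zero]
    intro h
    exact hj (Fin.ext h.symm)
  · intro h
    exact absurd (Finset.mem_univ i) h

private theorem LExt_mon_eq (q : (ZMod p)[X]) (hq : q.Monic) :
    mon p q.natDegree (fun i => q.coeff i) = q := by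
  conv_rhs => rw [hq.as_sum]
  unfold mon
  rw [Finset.sum_range (fun i => C (q.coeff i) * X ^ i)]

theorem ext_eq_ssum (K : Type) [Field K] [Fintype K] [Algebra (ZMod p) K] (a b : ZMod p)
    (ψ : DirichletCharacter ℂ p) :
    ext p K a b ψ = ssum p a b ψ (Module.finrank (ZMod p) K) := by
  classical
  have hfin : FiniteDimensional (ZMod p) K := Module.Finite.of_finite
  set n := Module.finrank (ZMod p) K with hn
  have hn0 : 0 < n := Module.finrank_pos
  have hint : ∀ x : K, IsIntegral (ZMod p) x := fun x => Algebra.IsIntegral.isIntegral x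
  have hterm : ∀ x : K, ((quadraticChar (ZMod p) (Algebra.norm (ZMod p)
      (x ^ 2 + algebraMap (ZMod p) K a * x + algebraMap (ZMod p) K b)) : ℤ) : ℂ) *
      ψ (Algebra.norm (ZMod p) x) =
      Xc p a b ψ (minpoly (ZMod p) x) ^ (n / (minpoly (ZMod p) x).natDegree) := by
    intro x
    have h1 : x ^ 2 + algebraMap (ZMod p) K a * x + algebraMap (ZMod p) K b =
        aeval x (gq p a b) := by
      simp [gq]
    have h2 : (gq p a b).natDegree ≤ 2 := by
      unfold gq
      compute_degree
    have h3 : Algebra.norm (ZMod p) x = ((-1) ^ (minpoly (ZMod p) x).natDegree *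
        (minpoly (ZMod p) x).coeff 0) ^ (n / (minpoly (ZMod p) x).natDegree) := by
      have h4 := LExt_norm_aeval (F := ZMod p) x (X - C 0) 1 (natDegree_X_sub_C_le _)
      rw [resultant_X_sub_C_right _ _ _ le_rfl, map_zero, sub_zero, aeval_X,
        ← coeff_zero_eq_eval_zero] at h4
      exact h4
    rw [h1, LExt_norm_aeval x (gq p a b) 2 h2, h3]
    unfold Xc
    rw [map_pow, map_pow, mul_pow]
    push_cast
    rfl
  unfold ext ssum
  rw [Finset.sum_congr rfl fun x _ => hterm x]
  have hfib : ∀ x : K, Xc p a b ψ (minpoly (ZMod p) x) ^ (n / (minpoly (ZMod p) x).natDegree) =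
      ∑ d ∈ n.divisors, ∑ v ∈ (univ : Finset (Fin d → ZMod p)).filter
        (fun v => Irreducible (mon p d v)), if minpoly (ZMod p) x = mon p d v then
          Xc p a b ψ (mon p d v) ^ (n / d) else 0 := by
    intro x
    set q := minpoly (ZMod p) x with hq
    have hqm : q.Monic := minpoly.monic (hint x)
    have hqi : Irreducible q := minpoly.irreducible (hint x)
    have hqd : q.natDegree ∣ n := minpoly.degree_dvd (hint x)
    rw [Finset.sum_eq_single q.natDegree]
    · rw [Finset.sum_eq_single (fun i : Fin q.natDegree => q.coeff i)]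
      · rw [LExt_mon_eq p q hqm, if_pos rfl]
      · intro v _ hv
        rw [if_neg]
        intro h
        apply hv
        funext i
        have h5 := congrArg (fun r : (ZMod p)[X] => r.coeff i) h
        simp only [LExt_mon_coeff] at h5
        exact h5.symm
      · intro h
        exfalso
        apply h
        rw [Finset.mem_filter, LExt_mon_eq p q hqm]
        exact ⟨Finset.mem_univ _, hqi⟩
    · intro d _ hd
      refine Finset.sum_eq_zero fun v _ => ?_
      rw [if_neg]
      intro h
      apply hd
      rw [h, LExt_mon_natDegree]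
    · intro h
      exact absurd (Nat.mem_divisors.mpr ⟨hqd, hn0.ne'⟩) h
  rw [Finset.sum_congr rfl fun x _ => hfib x, Finset.sum_comm]
  refine Finset.sum_congr rfl fun d hd => ?_
  rw [Finset.sum_comm]
  refine Finset.sum_congr rfl fun v hv => ?_
  have hirr := (Finset.mem_filter.mp hv).2
  rw [← Finset.sum_filter, Finset.sum_const, nsmul_eq_mul]
  congr 1
  have hc := LExt_card (L := K) (mon p d v) hirr (LExt_mon_monic p d v)
    (by rw [LExt_mon_natDegree]; exact Nat.dvd_of_mem_divisors hd)
  rw [LExt_mon_natDegree] at hc
  rw [Nat.card_eq_fintype_card, Fintype.card_subtype] at hc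
  exact_mod_cast hc

end Pool.Agent.Lib.MP_6179b0_nt.W
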