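import Mathlib

/-!
# Stepanov's method for quadratic characters: operators
-/

set_option autoImplicit false

namespace Pool.Agent.Lib.MP_6179b0_nt.W

open Polynomial Finset

variable {F : Type} [Field F]

/-- the cofactor of the `i`-th Hasse derivative of `f ^ M` -/
noncomputable def dq (f : F[X]) (M i : ℕ) : F[X] := hasseDeriv i (f ^ M) / f ^ (M - i)

/-- the operator `r ↦ hasseDeriv k (f ^ M * r) / f ^ (M - k)` -/
noncomputable def opk (f : F[X]) (M k : ℕ) (r : F[X]) : F[X] :=
  ∑ ij ∈ antidiagonal k, dq f M ij.1 * f ^ ij.2 * hasseDeriv ij.2 r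

end Pool.Agent.Lib.MP_6179b0_nt.W
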