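import Mathlib
import Pool.Agent.Lib.MP_6179b0_nt.W.SDefs

/-!
# Hasse derivatives of `f ^ M * r` and of `h * X ^ (j * q)`
-/

set_option autoImplicit false

namespace Pool.Agent.Lib.MP_6179b0_nt.W

open Polynomial Finset

variable {F : Type} [Field F]

theorem opk_add (f : F[X]) (M k : ℕ) (r s : F[X]) : opk f M k (r + s) = opk f M k r + opk f M k s := by
  unfold opk
  rw [← Finset.sum_add_distrib]
  apply Finset.sum_congr rfl
  intro ij _
  rw [map_add, mul_add]

theorem opk_smul (f : F[X]) (M k : ℕ) (c : F) (r : F[X]) : opk f M k (c • r) = c • opk f M k r := by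
  unfold opk
  rw [Finset.smul_sum]
  apply Finset.sum_congr rfl
  intro ij _
  rw [map_smul, mul_smul_comm]

theorem sHasse_dvd (f : F[X]) (M : ℕ) : ∀ i, f ^ (M - i) ∣ hasseDeriv i (f ^ M) := by
  induction M with
  | zero => intro i; simp
  | succ M ih =>
    intro i
    rw [pow_succ, hasseDeriv_mul]
    apply Finset.dvd_sum
    rintro ⟨a, b⟩ hab
    rw [HasAntidiagonal.mem_antidiagonal] at hab
    simp only at hab ⊢
    rcases Nat.eq_zero_or_pos b with hb | hb
    · subst hb
      rw [hasseDeriv_zero']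
      have ha : a = i := by omega
      subst ha
      refine (pow_dvd_pow f (show M + 1 - a ≤ (M - a) + 1 by omega)).trans ?_
      rw [pow_succ]
      exact mul_dvd_mul_right (ih a) f
    · refine (pow_dvd_pow f (show M + 1 - i ≤ M - a by omega)).trans ?_
      exact (ih a).mul_right _

theorem sHasse_dq (f : F[X]) (M i : ℕ) (hf : f ≠ 0) :
    f ^ (M - i) * dq f M i = hasseDeriv i (f ^ M) := by
  unfold dq
  exact EuclideanDomain.mul_div_cancel' (pow_ne_zero _ hf) (sHasse_dvd f M i)

theorem opk_spec (f : F[X]) (M k : ℕ) (hk : k ≤ M) (hf : f ≠ 0) (r : F[X]) :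
    hasseDeriv k (f ^ M * r) = f ^ (M - k) * opk f M k r := by
  rw [hasseDeriv_mul]
  unfold opk
  rw [Finset.mul_sum]
  apply Finset.sum_congr rfl
  rintro ⟨i, j⟩ hij
  rw [HasAntidiagonal.mem_antidiagonal] at hij
  simp only at hij ⊢
  rw [← sHasse_dq f M i hf]
  have : M - i = (M - k) + j := by omega
  rw [this, pow_add]
  ring

theorem sHasse_dq_natDegree (f : F[X]) (M i : ℕ) (hi : i ≤ M) (hf : 1 ≤ f.natDegree) :
    (dq f M i).natDegree ≤ i * (f.natDegree - 1) := by
  have hf0 : f ≠ 0 := by
    rintro rfl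
    simp at hf
  by_cases hd : dq f M i = 0
  · rw [hd]; simp
  have h1 := congrArg natDegree (sHasse_dq f M i hf0)
  rw [natDegree_mul (pow_ne_zero _ hf0) hd, natDegree_pow] at h1
  have h2 := natDegree_hasseDeriv_le (f ^ M) i
  rw [natDegree_pow] at h2
  obtain ⟨m, hm⟩ : ∃ m, f.natDegree = m + 1 := ⟨f.natDegree - 1, by omega⟩
  obtain ⟨N, hN⟩ : ∃ N, M = i + N := ⟨M - i, by omega⟩
  rw [hm] at h1 h2 ⊢
  subst hN
  rw [show i + N - i = N by omega] at h1
  rw [show m + 1 - 1 = m by omega]
  have h3 : (i + N) * (m + 1) - i = i * m + N * (m + 1) := by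
    have : (i + N) * (m + 1) = i * m + N * (m + 1) + i := by ring
    omega
  rw [h3] at h2
  omega

theorem opk_natDegree (f : F[X]) (M k : ℕ) (hk : k ≤ M) (hf : 1 ≤ f.natDegree) (r : F[X]) :
    (opk f M k r).natDegree ≤ r.natDegree + k * (f.natDegree - 1) := by
  unfold opk
  apply natDegree_sum_le_of_forall_le
  rintro ⟨i, j⟩ hij
  rw [HasAntidiagonal.mem_antidiagonal] at hij
  simp only at hij ⊢
  by_cases hj : r.natDegree < j
  · rw [hasseDeriv_eq_zero_of_lt_natDegree r j hj, mul_zero]
    simp
  · have h1 := sHasse_dq_natDegree f M i (by omega) hf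
    have h2 : (f ^ j).natDegree ≤ j * f.natDegree := natDegree_pow_le
    have h3 := natDegree_hasseDeriv_le r j
    have h4 : (dq f M i * f ^ j * hasseDeriv j r).natDegree ≤
        (dq f M i).natDegree + (f ^ j).natDegree + (hasseDeriv j r).natDegree :=
      (natDegree_mul_le).trans (Nat.add_le_add_right natDegree_mul_le _)
    obtain ⟨m, hm⟩ : ∃ m, f.natDegree = m + 1 := ⟨f.natDegree - 1, by omega⟩
    rw [hm] at h1 h2 ⊢
    rw [show m + 1 - 1 = m by omega] at h1 ⊢
    have h5 : k * m = i * m + j * m := by rw [← hij]; ring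
    have h6 : j * (m + 1) = j * m + j := by ring
    omega

theorem sHasse_X_pow [Fintype F] (k : ℕ) (hk0 : 0 < k) (hk : k < Fintype.card F) :
    hasseDeriv k ((X : F[X]) ^ Fintype.card F) = 0 := by
  rw [← monomial_one_right_eq_X_pow, hasseDeriv_monomial]
  obtain ⟨p, hp⟩ := CharP.exists F
  obtain ⟨n, hpp, hn⟩ := FiniteField.card F p
  have hdvd : p ∣ (Fintype.card F).choose k := by
    rw [hn]
    apply Nat.Prime.dvd_choose_pow hpp
    · omega
    · rw [← hn]; omega
  have : (((Fintype.card F).choose k : ℕ) : F) = 0 := (CharP.cast_eq_zero_iff F p _).mpr hdvd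
  rw [this, zero_mul]
  simp

theorem hasse_frob [Fintype F] (h : F[X]) (j k : ℕ) (hk : k < Fintype.card F) :
    hasseDeriv k (h * X ^ (j * Fintype.card F)) = hasseDeriv k h * X ^ (j * Fintype.card F) := by
  induction j generalizing k with
  | zero => simp
  | succ j ih =>
    have hexp : h * X ^ ((j + 1) * Fintype.card F) =
        (h * X ^ (j * Fintype.card F)) * X ^ Fintype.card F := by
      rw [add_mul, one_mul, pow_add, mul_assoc]
    rw [hexp, hasseDeriv_mul, Finset.sum_eq_single (k, 0)]
    · simp only [hasseDeriv_zero']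
      rw [ih k hk, add_mul, one_mul, pow_add, mul_assoc]
    · rintro ⟨a, b⟩ hab hne
      rw [HasAntidiagonal.mem_antidiagonal] at hab
      simp only at hab ⊢
      have hb : 0 < b := by
        rcases Nat.eq_zero_or_pos b with hb | hb
        · exfalso
          apply hne
          subst hb
          rw [add_zero] at hab
          rw [hab]
        · exact hb
      rw [sHasse_X_pow b hb (by omega), mul_zero]
    · intro hn
      exfalso
      apply hn
      rw [HasAntidiagonal.mem_antidiagonal]
      simp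

end Pool.Agent.Lib.MP_6179b0_nt.W
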