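import Mathlib
import Pool.Agent.Lib.MP_6179b0_nt.W.SHasse

/-!
# Existence of the coefficients of Stepanov's auxiliary polynomial (linear algebra)
-/

set_option autoImplicit false

namespace Pool.Agent.Lib.MP_6179b0_nt.W

open Polynomial Finset

variable {F : Type} [Field F] [Fintype F]

/-- the polynomial with the given coefficients -/
noncomputable def SKerPol (A : ℕ) : (Fin A → F) →ₗ[F] F[X] :=
  (degreeLT F A).subtype ∘ₗ (degreeLTEquiv F A).symm.toLinearMap

omit [Fintype F] in
theorem SKerPol_inj (A : ℕ) : Function.Injective (SKerPol (F := F) A) := by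
  unfold SKerPol
  rw [LinearMap.coe_comp]
  exact (Submodule.injective_subtype _).comp (LinearEquiv.injective _)

omit [Fintype F] in
theorem SKerPol_degree (A : ℕ) (v : Fin A → F) :
    (SKerPol A v).natDegree < A ∨ SKerPol A v = 0 := by
  have h : SKerPol A v ∈ degreeLT F A := ((degreeLTEquiv F A).symm v).2
  rw [mem_degreeLT] at h
  by_cases h0 : SKerPol A v = 0
  · exact Or.inr h0
  · exact Or.inl ((natDegree_lt_iff_degree_lt h0).2 h)

/-- the conditions -/
noncomputable def SKerMap (f : F[X]) (ε : F) (A J M g : ℕ) (N : ℕ → ℕ) :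
    ((Fin J → Fin A → F) × (Fin J → Fin A → F)) →ₗ[F]
      ((x : Σ k : Fin M, Fin (N k)) → F) where
  toFun v x := (∑ j : Fin J, (opk f M x.1 (SKerPol A (v.1 j)) +
    C ε * opk f (M + g) x.1 (SKerPol A (v.2 j))) * X ^ (j : ℕ)).coeff x.2
  map_add' u v := by
    funext x
    simp only [Prod.fst_add, Prod.snd_add, Pi.add_apply, map_add, opk_add]
    rw [← coeff_add, ← Finset.sum_add_distrib]
    congr 1
    exact Finset.sum_congr rfl fun j _ => by ring
  map_smul' c v := by
    funext x
    simp only [Prod.smul_fst, Prod.smul_snd, Pi.smul_apply, map_smul, opk_smul, RingHom.id_apply]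
    rw [← coeff_smul, Finset.smul_sum]
    congr 1
    refine Finset.sum_congr rfl fun j _ => ?_
    rw [smul_eq_C_mul, smul_eq_C_mul, smul_eq_C_mul]
    ring

theorem stepanov_ker (f : F[X]) (hd : 1 ≤ f.natDegree) (ε : F) (A J M : ℕ) (hA : 1 ≤ A) (hJ : 1 ≤ J)
    (hcount : M * (A + J) + (f.natDegree - 1) * (M * (M - 1) / 2) < 2 * (A * J)) :
    ∃ r s : ℕ → F[X], (∀ j, (r j).natDegree < A ∨ r j = 0) ∧ (∀ j, (s j).natDegree < A ∨ s j = 0) ∧
      (∃ j < J, r j ≠ 0 ∨ s j ≠ 0) ∧
      ∀ k < M, ∑ j ∈ range J, (opk f M k (r j) +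
        C ε * opk f (M + (Fintype.card F - 1) / 2) k (s j)) * X ^ j = 0 := by
  classical
  set g := (Fintype.card F - 1) / 2 with hg
  set N : ℕ → ℕ := fun k => A + J + k * (f.natDegree - 1) with hN
  let L := SKerMap f ε A J M g N
  have hlt : Module.finrank F ((x : Σ k : Fin M, Fin (N k)) → F) <
      Module.finrank F ((Fin J → Fin A → F) × (Fin J → Fin A → F)) := by
    rw [Module.finrank_fintype_fun_eq_card, Fintype.card_sigma, Module.finrank_prod,
      Module.finrank_pi_fintype]
    simp only [Fintype.card_fin, Module.finrank_fintype_fun_eq_card, Finset.sum_const,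
      Finset.card_univ, smul_eq_mul]
    have h1 : ∑ k : Fin M, N k = M * (A + J) + (f.natDegree - 1) * (M * (M - 1) / 2) := by
      rw [Fin.sum_univ_eq_sum_range (fun k => N k) M]
      simp only [hN]
      rw [Finset.sum_add_distrib, Finset.sum_const, card_range, smul_eq_mul, ← Finset.sum_mul,
        Finset.sum_range_id, mul_comm (M * (M - 1) / 2)]
    rw [h1]
    refine hcount.trans_le (le_of_eq ?_)
    ring
  obtain ⟨v, hv, hv0⟩ := Submodule.exists_mem_ne_zero_of_ne_bot
    (LinearMap.ker_ne_bot_of_finrank_lt (f := L) hlt)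
  rw [LinearMap.mem_ker] at hv
  refine ⟨fun j => if h : j < J then SKerPol A (v.1 ⟨j, h⟩) else 0,
    fun j => if h : j < J then SKerPol A (v.2 ⟨j, h⟩) else 0, ?_, ?_, ?_, ?_⟩
  · intro j
    by_cases h : j < J
    · simp only [h, dif_pos]
      exact SKerPol_degree A _
    · simp only [h, dif_neg, not_false_eq_true]
      exact Or.inr trivial
  · intro j
    by_cases h : j < J
    · simp only [h, dif_pos]
      exact SKerPol_degree A _
    · simp only [h, dif_neg, not_false_eq_true]
      exact Or.inr trivial
  · by_contra hcon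
    push Not at hcon
    apply hv0
    have h1 : ∀ j : Fin J, v.1 j = 0 ∧ v.2 j = 0 := by
      intro j
      have h2 := hcon j j.2
      simp only [j.2, dif_pos, Fin.eta] at h2
      exact ⟨SKerPol_inj A (by rw [h2.1, map_zero]), SKerPol_inj A (by rw [h2.2, map_zero])⟩
    exact Prod.ext (funext fun j => (h1 j).1) (funext fun j => (h1 j).2)
  · intro k hk
    have hsum : ∑ j ∈ range J, (opk f M k
          ((fun j => if h : j < J then SKerPol A (v.1 ⟨j, h⟩) else 0) j) +
        C ε * opk f (M + g) k
          ((fun j => if h : j < J then SKerPol A (v.2 ⟨j, h⟩) else 0) j)) * X ^ j =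
        ∑ j : Fin J, (opk f M k (SKerPol A (v.1 j)) +
          C ε * opk f (M + g) k (SKerPol A (v.2 j))) * X ^ (j : ℕ) := by
      rw [← Fin.sum_univ_eq_sum_range (fun j => (opk f M k
          ((fun j => if h : j < J then SKerPol A (v.1 ⟨j, h⟩) else 0) j) +
        C ε * opk f (M + g) k
          ((fun j => if h : j < J then SKerPol A (v.2 ⟨j, h⟩) else 0) j)) * X ^ j) J]
      refine Finset.sum_congr rfl fun j _ => ?_
      simp only [j.2, dif_pos, Fin.eta]
    rw [hsum]
    set P := ∑ j : Fin J, (opk f M k (SKerPol A (v.1 j)) +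
          C ε * opk f (M + g) k (SKerPol A (v.2 j))) * X ^ (j : ℕ) with hP
    have hdeg : P.natDegree < N k := by
      have h1 : P.natDegree ≤ (A - 1 + k * (f.natDegree - 1)) + (J - 1) := by
        refine natDegree_sum_le_of_forall_le _ _ fun j _ => ?_
        have hA1 : ∀ w : Fin A → F, (SKerPol A w).natDegree ≤ A - 1 := by
          intro w
          rcases SKerPol_degree A w with h | h
          · omega
          · rw [h, natDegree_zero]
            omega
        have h2 : (opk f M k (SKerPol A (v.1 j))).natDegree ≤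
            A - 1 + k * (f.natDegree - 1) :=
          (opk_natDegree f M k hk.le hd _).trans (Nat.add_le_add_right (hA1 _) _)
        have h3 : (C ε * opk f (M + g) k (SKerPol A (v.2 j))).natDegree ≤
            A - 1 + k * (f.natDegree - 1) :=
          (natDegree_C_mul_le _ _).trans
            ((opk_natDegree f (M + g) k (by omega) hd _).trans (Nat.add_le_add_right (hA1 _) _))
        refine natDegree_mul_le.trans (Nat.add_le_add ?_ ?_)
        · exact (natDegree_add_le _ _).trans (max_le h2 h3)
        · rw [natDegree_X_pow]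
          omega
      simp only [hN]
      omega
    ext i
    rw [coeff_zero]
    by_cases hi : i < N k
    · exact congrFun hv ⟨⟨k, hk⟩, ⟨i, hi⟩⟩
    · exact coeff_eq_zero_of_natDegree_lt (hdeg.trans_le (not_lt.1 hi))

end Pool.Agent.Lib.MP_6179b0_nt.W
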