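import Mathlib

/-!
# Nonvanishing of Stepanov's auxiliary polynomial
-/

set_option autoImplicit false

namespace Pool.Agent.Lib.MP_6179b0_nt.W

open Polynomial Finset

variable {F : Type} [Field F] [Fintype F]

omit [Fintype F] in
theorem SNe_key (f r s : F[X]) (c : F) (hc : c ≠ 0) (hf : Squarefree f) (hd : 1 ≤ f.natDegree)
    (h : f * r ^ 2 = C c * s ^ 2) : r = 0 ∧ s = 0 := by
  have hC : C c ≠ 0 := C_ne_zero.2 hc
  by_cases hr : r = 0
  · subst hr
    have h1 : C c * s ^ 2 = 0 := by rw [← h]; ring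
    refine ⟨rfl, ?_⟩
    rcases mul_eq_zero.1 h1 with h2 | h2
    · exact absurd h2 hC
    · exact pow_eq_zero_iff (by norm_num) |>.1 h2
  · exfalso
    have h1 : r ^ 2 ∣ s ^ 2 := by
      refine ⟨C c⁻¹ * f, ?_⟩
      have : s ^ 2 = C c⁻¹ * (C c * s ^ 2) := by
        rw [← mul_assoc, ← C_mul, inv_mul_cancel₀ hc, C_1, one_mul]
      rw [this, ← h]
      ring
    have h2 : r ∣ s := (UniqueFactorizationMonoid.pow_dvd_pow_iff_dvd (n := 2) (by norm_num)).1 h1
    obtain ⟨t, rfl⟩ := h2
    have h3 : f = C c * t ^ 2 := by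
      have h4 : r ^ 2 * f = r ^ 2 * (C c * t ^ 2) := by
        rw [mul_comm, h]
        ring
      exact mul_left_cancel₀ (pow_ne_zero 2 hr) h4
    have h5 : IsUnit t := hf t ⟨C c, by rw [h3]; ring⟩
    have h6 : IsUnit f := by
      rw [h3]
      exact (isUnit_C.2 (isUnit_iff_ne_zero.2 hc)).mul (h5.pow 2)
    have := natDegree_eq_zero_of_isUnit h6
    omega

theorem SNe_frob (f : F[X]) :
    (X : F[X]) ^ (Fintype.card F) ∣ f ^ (Fintype.card F) - C (f.coeff 0) := by
  have hq : 0 < Fintype.card F := Fintype.card_pos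
  rw [← FiniteField.expand_card f]
  rw [X_pow_dvd_iff]
  intro d hd
  rw [coeff_sub, coeff_expand hq, coeff_C]
  by_cases h : d = 0
  · subst h
    simp
  · rw [if_neg h, if_neg, sub_zero]
    intro h2
    have := Nat.le_of_dvd (Nat.pos_of_ne_zero h) h2
    omega

theorem SNe_step (hF : ringChar F ≠ 2) (f : F[X]) (hf : Squarefree f) (hd : 1 ≤ f.natDegree)
    (h0 : f.coeff 0 ≠ 0) (A : ℕ) (hA : 2 * A + f.natDegree ≤ Fintype.card F)
    (r s : F[X]) (hr : r.natDegree < A ∨ r = 0) (hs : s.natDegree < A ∨ s = 0)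
    (h : (X : F[X]) ^ (Fintype.card F) ∣ r + s * f ^ ((Fintype.card F - 1) / 2)) :
    r = 0 ∧ s = 0 := by
  have hodd : Fintype.card F % 2 = 1 := FiniteField.odd_card_of_char_ne_two hF
  set q := Fintype.card F with hq
  have hg : (q - 1) / 2 + (q - 1) / 2 + 1 = q := by omega
  set g := (q - 1) / 2
  have h1 : (X : F[X]) ^ q ∣ f * (r ^ 2) - C (f.coeff 0) * s ^ 2 := by
    have e : f * (r ^ 2) - C (f.coeff 0) * s ^ 2 =
        f * ((r + s * f ^ g) * (r - s * f ^ g)) + s ^ 2 * (f ^ q - C (f.coeff 0)) := by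
      have : f ^ q = f ^ g * f ^ g * f := by rw [← pow_add, ← pow_succ, hg]
      rw [this]
      ring
    rw [e]
    exact dvd_add (Dvd.dvd.mul_left (Dvd.dvd.mul_right h _) _) (Dvd.dvd.mul_left (SNe_frob f) _)
  have hdr : (f * r ^ 2).natDegree < q ∨ f * r ^ 2 = 0 := by
    rcases hr with hr | hr
    · left
      calc (f * r ^ 2).natDegree ≤ f.natDegree + (r ^ 2).natDegree := natDegree_mul_le
        _ ≤ f.natDegree + 2 * r.natDegree := by
            have := natDegree_pow_le (p := r) (n := 2)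
            omega
        _ < q := by omega
    · right
      rw [hr]
      ring
  have hds : (C (f.coeff 0) * s ^ 2).natDegree < q ∨ C (f.coeff 0) * s ^ 2 = 0 := by
    rcases hs with hs | hs
    · left
      calc (C (f.coeff 0) * s ^ 2).natDegree ≤ (s ^ 2).natDegree := natDegree_C_mul_le _ _
        _ ≤ 2 * s.natDegree := natDegree_pow_le
        _ < q := by omega
    · right
      rw [hs]
      ring
  have h2 : f * (r ^ 2) - C (f.coeff 0) * s ^ 2 = 0 := by
    by_contra hne
    have h3 := natDegree_le_of_dvd h1 hne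
    rw [natDegree_X_pow] at h3
    have h4 := natDegree_sub_le (f * (r ^ 2)) (C (f.coeff 0) * s ^ 2)
    have h5 : (f * (r ^ 2)).natDegree < q := by
      rcases hdr with h | h
      · exact h
      · rw [h]
        simp
        omega
    have h6 : (C (f.coeff 0) * s ^ 2).natDegree < q := by
      rcases hds with h | h
      · exact h
      · rw [h]
        simp
        omega
    have := max_lt h5 h6
    omega
  exact SNe_key f r s _ h0 hf hd (sub_eq_zero.1 h2)

theorem stepanov_ne (hF : ringChar F ≠ 2) (f : F[X]) (hf : Squarefree f) (hd : 1 ≤ f.natDegree)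
    (h0 : f.coeff 0 ≠ 0) (A J : ℕ) (hA : 2 * A + f.natDegree ≤ Fintype.card F)
    (r s : ℕ → F[X]) (hr : ∀ j, (r j).natDegree < A ∨ r j = 0) (hs : ∀ j, (s j).natDegree < A ∨ s j = 0)
    (h : ∑ j ∈ range J, (r j + s j * f ^ ((Fintype.card F - 1) / 2)) * X ^ (j * Fintype.card F) = 0) :
    ∀ j < J, r j = 0 ∧ s j = 0 := by
  intro j
  induction j using Nat.strong_induction_on with
  | _ j ih =>
    intro hj
    refine SNe_step hF f hf hd h0 A hA (r j) (s j) (hr j) (hs j) ?_
    set q := Fintype.card F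
    set g := (q - 1) / 2
    have h1 : (X : F[X]) ^ ((j + 1) * q) ∣ (r j + s j * f ^ g) * X ^ (j * q) := by
      have h2 : (r j + s j * f ^ g) * X ^ (j * q) =
          -∑ i ∈ (range J).erase j, (r i + s i * f ^ g) * X ^ (i * q) := by
        rw [← Finset.add_sum_erase (range J) _ (mem_range.2 hj)] at h
        exact eq_neg_of_add_eq_zero_left h
      rw [h2, dvd_neg]
      refine Finset.dvd_sum fun i hi => ?_
      rw [mem_erase, mem_range] at hi
      rcases lt_or_ge i j with h3 | h3
      · obtain ⟨h4, h5⟩ := ih i h3 (by omega)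
        rw [h4, h5]
        simp
      · have h4 : j + 1 ≤ i := by omega
        exact Dvd.dvd.mul_left (pow_dvd_pow _ (Nat.mul_le_mul_right q h4)) _
    rw [Nat.succ_mul, pow_add, mul_comm] at h1
    exact (mul_dvd_mul_iff_right (pow_ne_zero _ X_ne_zero)).1 h1

end Pool.Agent.Lib.MP_6179b0_nt.W
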