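import Mathlib
import Pool.Agent.Lib.MP_6179b0_nt.W.SKer
import Pool.Agent.Lib.MP_6179b0_nt.W.SNe

/-!
# Stepanov: the number of `x` with `f(x) ^ ((q-1)/2) = ε`
-/

set_option autoImplicit false

namespace Pool.Agent.Lib.MP_6179b0_nt.W

open Polynomial Finset

variable {F : Type} [Field F] [Fintype F] [DecidableEq F]

omit [Fintype F] [DecidableEq F] in
theorem SCount_hasse_sum (k : ℕ) (J : Finset ℕ) (u : ℕ → F[X]) :
    hasseDeriv k (∑ j ∈ J, u j) = ∑ j ∈ J, hasseDeriv k (u j) := map_sum _ _ _

omit [DecidableEq F] in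
theorem SCount_deriv (f : F[X]) (hd : 1 ≤ f.natDegree) (M J g k : ℕ) (hk : k < M)
    (hkq : k < Fintype.card F) (r s : ℕ → F[X]) :
    hasseDeriv k (f ^ M * ∑ j ∈ range J, (r j + s j * f ^ g) * X ^ (j * Fintype.card F)) =
      ∑ j ∈ range J, (f ^ (M - k) * opk f M k (r j) + f ^ (M + g - k) * opk f (M + g) k (s j)) *
        X ^ (j * Fintype.card F) := by
  have hf : f ≠ 0 := by
    rintro rfl
    simp at hd
  rw [Finset.mul_sum, SCount_hasse_sum]
  refine Finset.sum_congr rfl fun j _ => ?_
  have e : f ^ M * ((r j + s j * f ^ g) * X ^ (j * Fintype.card F)) =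
      (f ^ M * r j + f ^ (M + g) * s j) * X ^ (j * Fintype.card F) := by
    rw [pow_add]
    ring
  rw [e, hasse_frob _ j k hkq, map_add, opk_spec f M k hk.le hf, opk_spec f (M + g) k (by omega) hf]

omit [DecidableEq F] in
theorem SCount_eval (f : F[X]) (M J g k : ℕ) (hk : k < M) (r s : ℕ → F[X]) (ε x : F)
    (hx : (f.eval x) ^ g = ε)
    (h : ∑ j ∈ range J, (opk f M k (r j) + C ε * opk f (M + g) k (s j)) * X ^ j = 0) :
    (∑ j ∈ range J, (f ^ (M - k) * opk f M k (r j) + f ^ (M + g - k) * opk f (M + g) k (s j)) *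
        X ^ (j * Fintype.card F)).eval x = 0 := by
  have h1 := congrArg (eval x) h
  rw [eval_zero] at h1
  have h2 : (∑ j ∈ range J, (f ^ (M - k) * opk f M k (r j) + f ^ (M + g - k) * opk f (M + g) k (s j)) *
        X ^ (j * Fintype.card F)).eval x = (f.eval x) ^ (M - k) *
      (∑ j ∈ range J, (opk f M k (r j) + C ε * opk f (M + g) k (s j)) * X ^ j).eval x := by
    rw [eval_finsetSum, eval_finsetSum, Finset.mul_sum]
    refine Finset.sum_congr rfl fun j _ => ?_
    have e : M + g - k = (M - k) + g := by omega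
    have e2 : x ^ (j * Fintype.card F) = x ^ j := by
      rw [pow_mul, FiniteField.pow_card]
    simp only [eval_mul, eval_add, eval_pow, eval_X, eval_C]
    rw [e, pow_add, hx, e2]
    ring
  rw [h2, h1, mul_zero]

omit [Fintype F] [DecidableEq F] in
theorem SCount_mult (H : F[X]) (hH : H ≠ 0) (x : F) (M : ℕ)
    (h : ∀ k < M, (hasseDeriv k H).eval x = 0) : M ≤ H.rootMultiplicity x := by
  rw [le_rootMultiplicity_iff hH, X_sub_C_pow_dvd_iff, X_pow_dvd_iff]
  intro d hd
  have := h d hd
  rw [← taylor_coeff] at this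
  exact this

theorem SCount_card (H : F[X]) (hH : H ≠ 0) (M : ℕ) (S : Finset F)
    (h : ∀ x ∈ S, ∀ k < M, (hasseDeriv k H).eval x = 0) : M * S.card ≤ H.natDegree := by
  calc M * S.card = ∑ x ∈ S, M := by rw [sum_const, smul_eq_mul, mul_comm]
    _ ≤ ∑ x ∈ S, H.roots.count x := by
        refine Finset.sum_le_sum fun x hx => ?_
        rw [count_roots]
        exact SCount_mult H hH x M (h x hx)
    _ ≤ H.roots.card := by
        have h1 := Multiset.toFinset_sum_count_eq H.roots
        have h2 : ∑ x ∈ S, H.roots.count x ≤ ∑ x ∈ S ∪ H.roots.toFinset, H.roots.count x :=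
          Finset.sum_le_sum_of_subset subset_union_left
        have h3 : ∑ x ∈ S ∪ H.roots.toFinset, H.roots.count x = ∑ x ∈ H.roots.toFinset, H.roots.count x := by
          symm
          refine Finset.sum_subset subset_union_right fun x _ hx => ?_
          rw [Multiset.mem_toFinset] at hx
          exact Multiset.count_eq_zero_of_notMem hx
        omega
    _ ≤ H.natDegree := card_roots' H

theorem stepanov_count (hF : ringChar F ≠ 2) (f : F[X]) (hf : Squarefree f) (hd : 1 ≤ f.natDegree)
    (h0 : f.coeff 0 ≠ 0) (ε : F) (A J M : ℕ) (hA : 1 ≤ A) (hJ : 1 ≤ J) (hM : 1 ≤ M)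
    (hMq : M ≤ Fintype.card F)
    (hA2 : 2 * A + f.natDegree ≤ Fintype.card F)
    (hcount : M * (A + J) + (f.natDegree - 1) * (M * (M - 1) / 2) < 2 * (A * J)) :
    M * (univ.filter (fun x : F => (f.eval x) ^ ((Fintype.card F - 1) / 2) = ε ∧ f.eval x ≠ 0)).card ≤
      M * f.natDegree + A + f.natDegree * ((Fintype.card F - 1) / 2) + (J - 1) * Fintype.card F := by
  obtain ⟨r, s, hr, hs, ⟨j0, hj0, hne⟩, hk⟩ := stepanov_ker f hd ε A J M hA hJ hcount
  set g := (Fintype.card F - 1) / 2 with hg
  have hf0 : f ≠ 0 := by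
    rintro rfl
    simp at hd
  set H : F[X] := f ^ M * ∑ j ∈ range J, (r j + s j * f ^ g) * X ^ (j * Fintype.card F) with hH
  have hH0 : H ≠ 0 := by
    intro h
    rw [hH] at h
    rcases mul_eq_zero.1 h with h | h
    · exact pow_ne_zero M hf0 h
    · have := stepanov_ne hF f hf hd h0 A J hA2 r s hr hs h j0 hj0
      rcases hne with h | h
      · exact h this.1
      · exact h this.2
  have h1 : ∀ x ∈ univ.filter (fun x : F => (f.eval x) ^ g = ε ∧ f.eval x ≠ 0), ∀ k < M,
      (hasseDeriv k H).eval x = 0 := by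
    intro x hx k hkM
    rw [mem_filter] at hx
    rw [hH, SCount_deriv f hd M J g k hkM (by omega) r s]
    exact SCount_eval f M J g k hkM r s ε x hx.2.1 (hk k hkM)
  refine (SCount_card H hH0 M _ h1).trans ?_
  have h2 : (∑ j ∈ range J, (r j + s j * f ^ g) * X ^ (j * Fintype.card F)).natDegree ≤
      A + f.natDegree * g + (J - 1) * Fintype.card F := by
    refine natDegree_sum_le_of_forall_le _ _ fun j hj => ?_
    rw [mem_range] at hj
    have h3 : (r j).natDegree ≤ A := by
      rcases hr j with h | h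
      · exact h.le
      · rw [h]
        simp
    have h4 : (s j).natDegree ≤ A := by
      rcases hs j with h | h
      · exact h.le
      · rw [h]
        simp
    have h5 : (s j * f ^ g).natDegree ≤ A + f.natDegree * g := by
      calc (s j * f ^ g).natDegree ≤ (s j).natDegree + (f ^ g).natDegree := natDegree_mul_le
        _ ≤ A + f.natDegree * g := by
            have : (f ^ g).natDegree ≤ g * f.natDegree := natDegree_pow_le
            rw [mul_comm g] at this
            omega
    have h6 : (r j + s j * f ^ g).natDegree ≤ A + f.natDegree * g :=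
      natDegree_add_le_of_degree_le (by omega) h5
    calc ((r j + s j * f ^ g) * X ^ (j * Fintype.card F)).natDegree
        ≤ (r j + s j * f ^ g).natDegree + (X ^ (j * Fintype.card F) : F[X]).natDegree :=
          natDegree_mul_le
      _ ≤ A + f.natDegree * g + (J - 1) * Fintype.card F := by
          rw [natDegree_X_pow]
          have : j * Fintype.card F ≤ (J - 1) * Fintype.card F := Nat.mul_le_mul_right _ (by omega)
          omega
  calc H.natDegree ≤ (f ^ M).natDegree +
      (∑ j ∈ range J, (r j + s j * f ^ g) * X ^ (j * Fintype.card F)).natDegree := natDegree_mul_le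
    _ ≤ M * f.natDegree + (A + f.natDegree * g + (J - 1) * Fintype.card F) :=
        add_le_add natDegree_pow_le h2
    _ = _ := by ring

end Pool.Agent.Lib.MP_6179b0_nt.W
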