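import Mathlib
import Pool.Agent.Lib.MP_6179b0_nt.W.SCount

/-!
# Weil bound (with a weaker constant) for quadratic characters of squarefree polynomials
-/

set_option autoImplicit false

namespace Pool.Agent.Lib.MP_6179b0_nt.W

open Polynomial Finset

/-- The arithmetic of the parameters. -/
private lemma sbound_arith (q m M A J N : ℕ) (hm : 1 ≤ m) (hM1 : M * M ≤ q)
    (hM2 : q < (M + 1) * (M + 1)) (hbig : 20 * m + 39 ≤ M) (hA : A = (q - m) / 2)
    (hJ : J = (M + m) / 2 + 5)
    (hN : M * (A + J) + (m - 1) * (M * (M - 1) / 2) < 2 * (A * J) →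
      M * N ≤ M * m + A + m * ((q - 1) / 2) + (J - 1) * q) :
    (N : ℝ) ≤ q / 2 + m + (2 * m + 9) * (M + 3) / 2 := by
  have hMpos : 0 < M := by omega
  have hmq : 20 * m ≤ q := by nlinarith
  have hA1 : q ≤ 2 * A + m + 1 := by omega
  have hA2 : 2 * A + m ≤ q := by omega
  have hJ1 : M + m + 9 ≤ 2 * J := by omega
  have hJ2 : 2 * J ≤ M + m + 10 := by omega
  have hcount : M * (A + J) + (m - 1) * (M * (M - 1) / 2) < 2 * (A * J) := by
    obtain ⟨m', rfl⟩ : ∃ m', m = m' + 1 := ⟨m - 1, by omega⟩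
    obtain ⟨M', rfl⟩ : ∃ M', M = M' + 1 := ⟨M - 1, by omega⟩
    simp only [Nat.add_sub_cancel]
    have h1 : 2 * ((M' + 1) * M' / 2) ≤ (M' + 1) * M' := Nat.mul_div_le _ _
    set T := (M' + 1) * M' / 2
    have h2 : m' * (2 * T) ≤ m' * ((M' + 1) * M') := Nat.mul_le_mul_left _ h1
    -- work in integers, doubled
    zify at *
    nlinarith [mul_nonneg (show (0 : ℤ) ≤ 2 * A - (q - (m' + 1) - 1) by linarith)
      (show (0 : ℤ) ≤ 2 * J - (M' + 1) by linarith),
      mul_nonneg (show (0 : ℤ) ≤ q - (m' + 1) - 1 by nlinarith)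
      (show (0 : ℤ) ≤ 2 * J - (M' + 1) - (m' + 1) - 9 by linarith),
      mul_nonneg (show (0 : ℤ) ≤ (M' : ℤ) + 1 by positivity)
        (show (0 : ℤ) ≤ M' + 1 + (m' + 1) + 10 - 2 * J by linarith),
      mul_nonneg (show (0 : ℤ) ≤ (m' : ℤ) by positivity)
        (show (0 : ℤ) ≤ q - (M' + 1) * (M' + 1) by linarith)]
  have h := hN hcount
  have hJ0 : 1 ≤ J := by omega
  have hr : ((M * N : ℕ) : ℝ) ≤ ((M * m + A + m * ((q - 1) / 2) + (J - 1) * q : ℕ) : ℝ) := by
    exact_mod_cast h
  push_cast [Nat.cast_sub hJ0] at hr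
  have h1 : (((q - 1) / 2 : ℕ) : ℝ) ≤ q / 2 := by
    have : 2 * ((q - 1) / 2) ≤ q := by omega
    have h2 : (2 * (((q - 1) / 2 : ℕ) : ℝ)) ≤ q := by exact_mod_cast this
    linarith
  have h2 : (A : ℝ) ≤ q / 2 := by
    have : 2 * A ≤ q := by omega
    have h3 : (2 * (A : ℝ)) ≤ q := by exact_mod_cast this
    linarith
  have h3 : (J : ℝ) - 1 ≤ (M + m + 8) / 2 := by
    have : (2 * (J : ℝ)) ≤ M + m + 10 := by exact_mod_cast hJ2
    linarith
  have hM0 : (0 : ℝ) < M := by exact_mod_cast hMpos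
  have hM1' : (1 : ℝ) ≤ M := by exact_mod_cast hMpos
  have hm0 : (0 : ℝ) ≤ m := Nat.cast_nonneg m
  have hq0 : (0 : ℝ) ≤ q := Nat.cast_nonneg q
  have hq2 : (q : ℝ) ≤ (M + 1) * (M + 1) - 1 := by
    have : q + 1 ≤ (M + 1) * (M + 1) := hM2
    have h4 : (q : ℝ) + 1 ≤ (M + 1) * (M + 1) := by exact_mod_cast this
    linarith
  have h4 : (M : ℝ) * N ≤ M * m + q / 2 + m * (q / 2) + (M + m + 8) / 2 * q := by
    have h5 : (m : ℝ) * (((q - 1) / 2 : ℕ) : ℝ) ≤ m * (q / 2) := mul_le_mul_of_nonneg_left h1 hm0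
    have h6 : ((J : ℝ) - 1) * q ≤ (M + m + 8) / 2 * q := mul_le_mul_of_nonneg_right h3 hq0
    linarith
  have h5 : (M : ℝ) * N ≤ M * (q / 2 + m + (2 * m + 9) * (M + 3) / 2) := by
    have h6 : (q : ℝ) * (2 * m + 9) / 2 ≤ M * ((2 * m + 9) * (M + 3) / 2) := by
      have h7 : (q : ℝ) ≤ M * (M + 3) := by nlinarith
      have h8 : (0 : ℝ) ≤ 2 * m + 9 := by positivity
      nlinarith [mul_le_mul_of_nonneg_right h7 h8]
    nlinarith
  exact le_of_mul_le_mul_left h5 hM0

private lemma sbound_squarefree (F : Type) [Field F] (x0 : F) (f : F[X]) (hf : Squarefree f) :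
    Squarefree (taylor x0 f) := by
  intro x hx
  have h1 : (taylorEquiv (-x0)) x * (taylorEquiv (-x0)) x ∣ f := by
    rw [← map_mul]
    obtain ⟨c, hc⟩ := hx
    refine ⟨taylorEquiv (-x0) c, ?_⟩
    rw [← map_mul, ← hc]
    change f = taylor (-x0) (taylor x0 f)
    rw [taylor_taylor]
    simp
  have h2 := hf _ h1
  have h3 := h2.map (taylorEquiv x0)
  have h4 : (taylorEquiv x0) ((taylorEquiv (-x0)) x) = x := by
    change taylor x0 (taylor (-x0) x) = x
    rw [taylor_taylor]
    simp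
  rwa [h4] at h3

theorem stepanov_bound (F : Type) [Field F] [Fintype F] [DecidableEq F] (hF : ringChar F ≠ 2)
    (f : F[X]) (hf : Squarefree f) (hd : 1 ≤ f.natDegree) :
    |∑ x : F, (quadraticChar F (f.eval x) : ℝ)| ≤
      (20 * f.natDegree + 40) * √(Fintype.card F : ℝ) := by
  set q := Fintype.card F with hq
  set m := f.natDegree with hm
  have hq1 : 1 ≤ q := Fintype.card_pos
  have hs : √(q : ℝ) * √(q : ℝ) = q := Real.mul_self_sqrt (Nat.cast_nonneg q)
  have hs0 : 0 ≤ √(q : ℝ) := Real.sqrt_nonneg _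
  have hchi : ∀ a : F, |(quadraticChar F a : ℝ)| ≤ 1 := by
    intro a
    by_cases ha : a = 0
    · rw [ha, quadraticChar_zero]; simp
    · rcases quadraticChar_dichotomy ha with h | h <;> rw [h] <;> simp
  by_cases hsmall : √(q : ℝ) < 20 * m + 40
  · -- trivial bound
    calc |∑ x : F, (quadraticChar F (f.eval x) : ℝ)|
        ≤ ∑ x : F, |(quadraticChar F (f.eval x) : ℝ)| := abs_sum_le_sum_abs _ _
      _ ≤ ∑ _x : F, (1 : ℝ) := sum_le_sum fun x _ => hchi _
      _ = q := by simp [hq]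
      _ = √(q : ℝ) * √(q : ℝ) := hs.symm
      _ ≤ (20 * m + 40) * √(q : ℝ) := mul_le_mul_of_nonneg_right hsmall.le hs0
  · push Not at hsmall
    set M := Nat.sqrt q with hM
    have hM1 : M * M ≤ q := Nat.sqrt_le q
    have hM2 : q < (M + 1) * (M + 1) := Nat.lt_succ_sqrt q
    have hsM : √(q : ℝ) < M + 1 := by
      rw [Real.sqrt_lt' (by positivity)]
      have : (q : ℝ) < (M + 1) * (M + 1) := by exact_mod_cast hM2
      linarith [sq ((M : ℝ) + 1)]
    have hMs : (M : ℝ) ≤ √(q : ℝ) := by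
      apply Real.le_sqrt_of_sq_le
      have : (M : ℝ) * M ≤ q := by exact_mod_cast hM1
      linarith [sq (M : ℝ)]
    have hbig : 20 * m + 39 ≤ M := by
      have h1 : (20 * m + 40 : ℝ) < M + 1 := lt_of_le_of_lt hsmall hsM
      have h2 : 20 * m + 40 < M + 1 := by exact_mod_cast h1
      omega
    have hqm : m < q := by nlinarith
    have hf0 : f ≠ 0 := by
      intro h0
      rw [hm, h0] at hd
      simp at hd
    -- the number of roots
    have hroots : ∀ g : F[X], g ≠ 0 → (univ.filter (fun x : F => g.eval x = 0)).card ≤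
        g.natDegree := by
      intro g hg
      calc (univ.filter (fun x : F => g.eval x = 0)).card ≤ g.roots.toFinset.card := by
            apply card_le_card
            intro x hx
            rw [mem_filter] at hx
            rw [Multiset.mem_toFinset, mem_roots hg]
            exact hx.2
        _ ≤ Multiset.card g.roots := Multiset.toFinset_card_le _
        _ ≤ g.natDegree := card_roots' g
    obtain ⟨x0, hx0⟩ : ∃ x0 : F, f.eval x0 ≠ 0 := by
      by_contra hcon
      push Not at hcon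
      have h1 := hroots f hf0
      rw [filter_true_of_mem (fun x _ => hcon x), card_univ] at h1
      omega
    set g := taylor x0 f with hg
    have hgm : g.natDegree = m := natDegree_taylor f x0
    have hgsq : Squarefree g := sbound_squarefree F x0 f hf
    have hg0 : g.coeff 0 ≠ 0 := by rw [hg, taylor_coeff_zero]; exact hx0
    have hgne : g ≠ 0 := fun h => hg0 (by rw [h]; simp)
    have hsum : ∑ x : F, (quadraticChar F (f.eval x) : ℝ) =
        ∑ x : F, (quadraticChar F (g.eval x) : ℝ) := by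
      rw [← Equiv.sum_comp (Equiv.addRight x0) (fun x => (quadraticChar F (f.eval x) : ℝ))]
      apply sum_congr rfl
      intro x _
      rw [hg, taylor_eval]
      rfl
    rw [hsum]
    have hodd : q % 2 = 1 := FiniteField.odd_card_of_char_ne_two hF
    have hhalf : q / 2 = (q - 1) / 2 := by omega
    set N : F → ℕ := fun ε => (univ.filter (fun x : F => (g.eval x) ^ ((q - 1) / 2) = ε ∧
      g.eval x ≠ 0)).card with hN
    have hNb : ∀ ε : F, (N ε : ℝ) ≤ q / 2 + m + (2 * m + 9) * (M + 3) / 2 := by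
      intro ε
      have hA1 : 1 ≤ (q - m) / 2 := by
        have : 20 * m + 39 ≤ q := hbig.trans ((Nat.le_mul_self M).trans hM1)
        omega
      apply sbound_arith q m M ((q - m) / 2) ((M + m) / 2 + 5) (N ε) hd hM1 hM2 hbig rfl rfl
      intro hcount
      have := stepanov_count hF g hgsq (by rw [hgm]; exact hd) hg0 ε ((q - m) / 2)
        ((M + m) / 2 + 5) M hA1 (by omega) (by omega) ((Nat.le_mul_self M).trans hM1)
        (by rw [hgm]; omega) (by rw [hgm]; exact hcount)
      rw [hgm] at this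
      exact this
    have hN0 : (univ.filter (fun x : F => g.eval x = 0)).card ≤ m := by
      rw [← hgm]; exact hroots g hgne
    have hne : (1 : F) ≠ -1 := (Ring.neg_one_ne_one_of_char_ne_two hF).symm
    have hcases : ∀ x : F, (quadraticChar F (g.eval x) : ℝ) =
        (if (g.eval x) ^ ((q - 1) / 2) = 1 ∧ g.eval x ≠ 0 then (1 : ℝ) else 0) -
        (if (g.eval x) ^ ((q - 1) / 2) = -1 ∧ g.eval x ≠ 0 then (1 : ℝ) else 0) ∧
        (1 : ℝ) = (if (g.eval x) ^ ((q - 1) / 2) = 1 ∧ g.eval x ≠ 0 then (1 : ℝ) else 0) +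
        (if (g.eval x) ^ ((q - 1) / 2) = -1 ∧ g.eval x ≠ 0 then (1 : ℝ) else 0) +
        (if g.eval x = 0 then (1 : ℝ) else 0) := by
      intro x
      by_cases hx : g.eval x = 0
      · rw [hx, quadraticChar_zero]; simp
      · have h1 := quadraticChar_eq_pow_of_char_ne_two hF hx
        have h2 := FiniteField.pow_dichotomy hF hx
        rw [← hq, hhalf] at h1 h2
        rcases h2 with h2 | h2
        · rw [h1, h2]; simp [hx, hne]
        · rw [h1, h2]; simp [hx, hne.symm]
    have hS : ∑ x : F, (quadraticChar F (g.eval x) : ℝ) = (N 1 : ℝ) - N (-1) := by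
      rw [sum_congr rfl (fun x _ => (hcases x).1), sum_sub_distrib]
      simp only [hN, card_filter]
      push_cast
      rfl
    have hT : (q : ℝ) = (N 1 : ℝ) + N (-1) +
        ((univ.filter (fun x : F => g.eval x = 0)).card : ℝ) := by
      have h1 : (q : ℝ) = ∑ _x : F, (1 : ℝ) := by simp [hq]
      rw [h1, sum_congr rfl (fun x _ => (hcases x).2), sum_add_distrib, sum_add_distrib]
      simp only [hN, card_filter]
      push_cast
      rfl
    have hN0' : ((univ.filter (fun x : F => g.eval x = 0)).card : ℝ) ≤ m := by exact_mod_cast hN0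
    have hb1 := hNb 1
    have hb2 := hNb (-1)
    have hs1 : 1 ≤ √(q : ℝ) := by
      rw [Real.one_le_sqrt]; exact_mod_cast hq1
    have hm0 : (0 : ℝ) ≤ m := Nat.cast_nonneg m
    have hE : (2 * m + 9) * ((M : ℝ) + 3) + 3 * m ≤ (20 * m + 40) * √(q : ℝ) := by
      have h1 : (2 * m + 9) * ((M : ℝ) + 3) ≤ (2 * m + 9) * (√(q : ℝ) + 3) :=
        mul_le_mul_of_nonneg_left (by linarith) (by positivity)
      have h2 : (9 * m + 27 : ℝ) ≤ (9 * m + 27) * √(q : ℝ) :=
        le_mul_of_one_le_right (by positivity) hs1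
      nlinarith
    rw [hS, abs_le]
    constructor <;> nlinarith

end Pool.Agent.Lib.MP_6179b0_nt.W
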