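import Mathlib
import Pool.Agent.Lib.MP_6179b0_nt.W.LDefs
import Pool.Agent.Lib.MP_6179b0_nt.W.SBound

/-!
# Bound for the sums over extension fields
-/

set_option autoImplicit false

namespace Pool.Agent.Lib.MP_6179b0_nt.W

open Polynomial Finset

variable (p : ℕ) [Fact p.Prime]

/-- the quadratic character of the norm is the quadratic character -/
theorem lExtBound_chi (hp : p ≠ 2) (K : Type) [Field K] [Fintype K] [DecidableEq K]
    [Algebra (ZMod p) K] (hK : ringChar K ≠ 2) (y : K) :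
    quadraticChar (ZMod p) (Algebra.norm (ZMod p) y) = quadraticChar K y := by
  have hprime : p.Prime := Fact.out
  have hodd : Odd p := hprime.odd_of_ne_two hp
  by_cases hy : y = 0
  · rw [hy, Algebra.norm_zero, quadraticChar_zero, quadraticChar_zero]
  have hN : Algebra.norm (ZMod p) y ≠ 0 := Algebra.norm_ne_zero_iff.mpr hy
  have hp' : ringChar (ZMod p) ≠ 2 := by rw [ZMod.ringChar_zmod_n]; exact hp
  -- the two values agree in `K`
  have h1 : ((quadraticChar (ZMod p) (Algebra.norm (ZMod p) y) : ℤ) : ZMod p) =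
      (Algebra.norm (ZMod p) y) ^ (Fintype.card (ZMod p) / 2) :=
    quadraticChar_eq_pow_of_char_ne_two' hp' _
  have h2 : ((quadraticChar K y : ℤ) : K) = y ^ (Fintype.card K / 2) :=
    quadraticChar_eq_pow_of_char_ne_two' hK _
  have h3 : algebraMap (ZMod p) K (Algebra.norm (ZMod p) y) =
      y ^ ((Nat.card K - 1) / (Nat.card (ZMod p) - 1)) := FiniteField.algebraMap_norm_eq_pow
  rw [Nat.card_eq_fintype_card, Nat.card_eq_fintype_card, ZMod.card] at h3
  rw [ZMod.card] at h1
  have hQ : Fintype.card K = p ^ Module.finrank (ZMod p) K := by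
    rw [Module.card_eq_pow_finrank (K := ZMod p) (V := K), ZMod.card]
  have hdvd : p - 1 ∣ Fintype.card K - 1 := by
    rw [hQ]
    have := Nat.sub_dvd_pow_sub_pow p 1 (Module.finrank (ZMod p) K)
    rwa [one_pow] at this
  obtain ⟨e, he⟩ := hdvd
  obtain ⟨h, hh⟩ := hodd
  have hp1 : 0 < p - 1 := by have := hprime.two_le; omega
  have hee : (Fintype.card K - 1) / (p - 1) = e := by
    rw [he]; exact Nat.mul_div_cancel_left e hp1
  rw [hee] at h3
  have hexp : e * (p / 2) = Fintype.card K / 2 := by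
    have hq1 : 1 ≤ Fintype.card K := Fintype.card_pos
    have hpq : p / 2 = h := by omega
    have hq : Fintype.card K = 2 * (h * e) + 1 := by
      have : p - 1 = 2 * h := by omega
      rw [this] at he
      have h5 : 2 * h * e = 2 * (h * e) := by ring
      omega
    rw [hpq, hq, mul_comm e h]
    omega
  have h4 : ((quadraticChar (ZMod p) (Algebra.norm (ZMod p) y) : ℤ) : K) =
      ((quadraticChar K y : ℤ) : K) := by
    have h5 := congrArg (algebraMap (ZMod p) K) h1
    rw [map_intCast, map_pow, h3, ← pow_mul, hexp] at h5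
    rw [h5, h2]
  have hne : ((1 : ℤ) : K) ≠ ((-1 : ℤ) : K) := by
    push_cast
    intro hc
    have h6 : (2 : K) = 0 := by linear_combination hc
    exact (Ring.two_ne_zero hK) h6
  rcases quadraticChar_dichotomy hN with ha | ha <;> rcases quadraticChar_dichotomy hy with hb | hb
  · rw [ha, hb]
  · rw [ha, hb] at h4; exact absurd h4 hne
  · rw [ha, hb] at h4; exact absurd h4.symm hne
  · rw [ha, hb]

/-- a sum over a finite field in terms of the units -/
theorem lExtBound_units (K : Type) [Field K] [Fintype K] [DecidableEq K] {E : Type}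
    [AddCommMonoid E] (f : K → E) : ∑ x : K, f x = f 0 + ∑ u : Kˣ, f u := by
  rw [← Finset.add_sum_erase univ f (mem_univ (0 : K))]
  congr 1
  symm
  apply Finset.sum_bij (fun (u : Kˣ) _ => (u : K))
  · intro u _
    simp
  · intro u _ v _ h
    exact Units.ext h
  · intro x hx
    have hx0 : x ≠ 0 := by simpa using hx
    exact ⟨Units.mk0 x hx0, mem_univ _, rfl⟩
  · intro u _
    rfl

/-- the polynomial `c² X^(2d) + a c X^d + b` -/
noncomputable def lExtBound_f (K : Type) [Field K] (a b c : K) (d : ℕ) : K[X] :=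
  C (c ^ 2) * X ^ (2 * d) + C (a * c) * X ^ d + C b

theorem lExtBound_sep (K : Type) [Field K] (a b c : K) (d : ℕ) (hd : (d : K) ≠ 0)
    (hb : b ≠ 0) (hc : c ≠ 0) (hab : a ^ 2 ≠ 4 * b) :
    (lExtBound_f K a b c d).Separable := by
  have hdn : d ≠ 0 := by
    rintro rfl
    simp at hd
  obtain ⟨n, rfl⟩ := Nat.exists_eq_succ_of_ne_zero hdn
  rw [separable_def]
  have hder : X * derivative (lExtBound_f K a b c (n + 1)) =
      C ((n + 1 : ℕ) * c : K) * (X ^ (n + 1) * (C (2 * c) * X ^ (n + 1) + C a)) := by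
    unfold lExtBound_f
    simp only [derivative_add, derivative_mul, derivative_C, derivative_X_pow, zero_mul, zero_add,
      add_zero]
    have e1 : 2 * (n + 1) - 1 = 2 * n + 1 := by omega
    have e2 : n + 1 - 1 = n := by omega
    rw [e1, e2]
    simp only [C_mul, C_pow, Nat.cast_mul, Nat.cast_add, Nat.cast_one, Nat.cast_ofNat, map_add,
      map_ofNat, map_natCast, map_one]
    ring
  have hcop : IsCoprime (lExtBound_f K a b c (n + 1))
      (X ^ (n + 1) * (C (2 * c) * X ^ (n + 1) + C a)) := by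
    apply IsCoprime.mul_right
    · refine ⟨C b⁻¹, -(C b⁻¹ * (C (c ^ 2) * X ^ (n + 1) + C (a * c))), ?_⟩
      have hbb : C b⁻¹ * C b = (1 : K[X]) := by rw [← C_mul, inv_mul_cancel₀ hb, C_1]
      unfold lExtBound_f
      have e : (X : K[X]) ^ (2 * (n + 1)) = X ^ (n + 1) * X ^ (n + 1) := by rw [two_mul, pow_add]
      rw [e]
      linear_combination hbb
    · have hdisc : 4 * b - a ^ 2 ≠ 0 := by
        intro h
        exact hab (by linear_combination -h)
      refine ⟨C ((4 * b - a ^ 2)⁻¹ * 4), -(C (4 * b - a ^ 2)⁻¹ * (C (2 * c) * X ^ (n + 1) + C a)), ?_⟩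
      have hbb : C (4 * b - a ^ 2)⁻¹ * (C 4 * C b - C a ^ 2) = (1 : K[X]) := by
        rw [← C_mul, ← C_pow, ← C_sub, ← C_mul, inv_mul_cancel₀ hdisc, C_1]
      unfold lExtBound_f
      have e : (X : K[X]) ^ (2 * (n + 1)) = X ^ (n + 1) * X ^ (n + 1) := by rw [two_mul, pow_add]
      rw [e]
      simp only [C_mul, C_pow, map_ofNat] at hbb ⊢
      linear_combination hbb
  have hu : IsUnit (C ((n + 1 : ℕ) * c : K)) := by
    rw [isUnit_C]
    exact (mul_ne_zero hd hc).isUnit
  have hcop2 : IsCoprime (lExtBound_f K a b c (n + 1))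
      (X * derivative (lExtBound_f K a b c (n + 1))) := by
    rw [hder]
    exact (isCoprime_mul_unit_left_right hu _ _).mpr hcop
  exact hcop2.of_mul_right_right

theorem lExtBound_deg (K : Type) [Field K] (a b c : K) (d : ℕ) (hd : d ≠ 0) (hc : c ≠ 0) :
    (lExtBound_f K a b c d).natDegree = 2 * d := by
  unfold lExtBound_f
  have h1 : (C (a * c) * X ^ d + C b : K[X]).natDegree < 2 * d := by
    have h2 : (C (a * c) * X ^ d + C b : K[X]).natDegree ≤ d := by
      apply natDegree_add_le_of_degree_le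
      · exact natDegree_C_mul_X_pow_le _ _
      · simp
    omega
  rw [add_assoc, natDegree_add_eq_left_of_natDegree_lt]
  · exact natDegree_C_mul_X_pow _ _ (pow_ne_zero 2 hc)
  · rw [natDegree_C_mul_X_pow _ _ (pow_ne_zero 2 hc)]
    exact h1

theorem ext_bound (hp : p ≠ 2) (K : Type) [Field K] [Fintype K] [Algebra (ZMod p) K] (a b : ZMod p)
    (hb : b ≠ 0) (hab : a ^ 2 ≠ 4 * b) (ψ : DirichletCharacter ℂ p) :
    ‖ext p K a b ψ‖ ≤ (40 * p + 41) * √(Fintype.card K : ℝ) := by
  classical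
  have hprime : p.Prime := Fact.out
  have hp2 : 2 ≤ p := hprime.two_le
  have hp3 : 3 ≤ p := by omega
  have hcharP : CharP K p := (Algebra.charP_iff (ZMod p) K p).mp (ZMod.charP p)
  have hKc : ringChar K ≠ 2 := by rw [ringChar.eq K p]; exact hp
  have hQ : 1 ≤ Fintype.card K := Fintype.card_pos
  have hdK : ((p - 1 : ℕ) : K) ≠ 0 := by
    rw [Nat.cast_sub (by omega : 1 ≤ p), Nat.cast_one, CharP.cast_eq_zero K p, zero_sub]
    exact neg_ne_zero.mpr one_ne_zero
  have hinj := (algebraMap (ZMod p) K).injective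
  have hb' : algebraMap (ZMod p) K b ≠ 0 := by
    rw [Ne, map_eq_zero_iff _ hinj]; exact hb
  have hab' : (algebraMap (ZMod p) K a) ^ 2 ≠ 4 * algebraMap (ZMod p) K b := by
    intro h
    apply hab
    apply hinj
    rw [map_pow, map_mul, map_ofNat]
    exact h
  -- the summand
  obtain ⟨T, hT⟩ : ∃ T : K → ℂ, T = fun x => ((quadraticChar K
      (x ^ 2 + algebraMap (ZMod p) K a * x + algebraMap (ZMod p) K b) : ℤ) : ℂ) *
    ψ (Algebra.norm (ZMod p) x) := ⟨_, rfl⟩
  have hext : ext p K a b ψ = ∑ x : K, T x := by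
    unfold ext
    apply Finset.sum_congr rfl
    intro x _
    rw [lExtBound_chi p hp K hKc, hT]
  have hT0 : T 0 = 0 := by
    rw [hT]
    simp only
    rw [Algebra.norm_zero]
    have : ψ 0 = 0 := ψ.map_nonunit not_isUnit_zero
    rw [this, mul_zero]
  rw [hext, lExtBound_units, hT0, zero_add]
  -- shifting by `z ^ (p - 1)`
  have hshift : ∀ z : Kˣ, ∑ x : Kˣ, T x = ∑ c : Kˣ, T ((c : K) * (z : K) ^ (p - 1)) := by
    intro z
    rw [← Equiv.sum_comp (Equiv.mulRight (z ^ (p - 1))) (fun x : Kˣ => T x)]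
    apply Finset.sum_congr rfl
    intro c _
    simp
  have hψ : ∀ c z : Kˣ, ψ (Algebra.norm (ZMod p) ((c : K) * (z : K) ^ (p - 1))) =
      ψ (Algebra.norm (ZMod p) (c : K)) := by
    intro c z
    rw [map_mul, map_pow]
    have : Algebra.norm (ZMod p) (z : K) ^ (p - 1) = 1 :=
      ZMod.pow_card_sub_one_eq_one (Algebra.norm_ne_zero_iff.mpr z.ne_zero)
    rw [this, mul_one]
  have hkey : (Fintype.card Kˣ : ℂ) * ∑ x : Kˣ, T x = ∑ c : Kˣ,
      ψ (Algebra.norm (ZMod p) (c : K)) * ∑ z : Kˣ,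
        ((quadraticChar K ((lExtBound_f K (algebraMap (ZMod p) K a) (algebraMap (ZMod p) K b) c
          (p - 1)).eval (z : K)) : ℤ) : ℂ) := by
    have h1 : (Fintype.card Kˣ : ℂ) * ∑ x : Kˣ, T x = ∑ z : Kˣ, ∑ x : Kˣ, T x := by
      rw [Finset.sum_const, Finset.card_univ, nsmul_eq_mul]
    rw [h1, Finset.sum_congr rfl fun z _ => hshift z, Finset.sum_comm]
    apply Finset.sum_congr rfl
    intro c _
    rw [Finset.mul_sum]
    apply Finset.sum_congr rfl
    intro z _
    rw [hT]
    simp only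
    rw [hψ, mul_comm]
    congr 3
    unfold lExtBound_f
    simp only [eval_add, eval_mul, eval_C, eval_pow, eval_X]
    ring_nf
  -- the inner sums
  have hsq1 : 1 ≤ √(Fintype.card K : ℝ) := by
    rw [Real.one_le_sqrt]
    exact_mod_cast hQ
  have hin : ∀ c : Kˣ, ‖∑ z : Kˣ,
        ((quadraticChar K ((lExtBound_f K (algebraMap (ZMod p) K a) (algebraMap (ZMod p) K b) c
          (p - 1)).eval (z : K)) : ℤ) : ℂ)‖ ≤ (40 * p + 41) * √(Fintype.card K : ℝ) := by
    intro c
    have hsq := (lExtBound_sep K (algebraMap (ZMod p) K a) (algebraMap (ZMod p) K b) c (p - 1) hdK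
      hb' c.ne_zero hab').squarefree
    have hdeg := lExtBound_deg K (algebraMap (ZMod p) K a) (algebraMap (ZMod p) K b) c (p - 1)
      (by omega) c.ne_zero
    have hst := stepanov_bound K hKc _ hsq (by rw [hdeg]; omega)
    rw [hdeg] at hst
    rw [lExtBound_units] at hst
    have hcast : ∑ z : Kˣ,
        ((quadraticChar K ((lExtBound_f K (algebraMap (ZMod p) K a) (algebraMap (ZMod p) K b) c
          (p - 1)).eval (z : K)) : ℤ) : ℂ) = ((∑ z : Kˣ,
        ((quadraticChar K ((lExtBound_f K (algebraMap (ZMod p) K a) (algebraMap (ZMod p) K b) c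
          (p - 1)).eval (z : K)) : ℤ) : ℝ) : ℝ) : ℂ) := by
      push_cast
      rfl
    rw [hcast, Complex.norm_real, Real.norm_eq_abs]
    have h0 : |((quadraticChar K ((lExtBound_f K (algebraMap (ZMod p) K a)
        (algebraMap (ZMod p) K b) c (p - 1)).eval 0) : ℤ) : ℝ)| ≤ 1 := by
      by_cases hz : (lExtBound_f K (algebraMap (ZMod p) K a)
        (algebraMap (ZMod p) K b) c (p - 1)).eval 0 = 0
      · rw [hz, quadraticChar_zero]; simp
      · rcases quadraticChar_dichotomy hz with h | h <;> rw [h] <;> simp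
    have htri : ∀ u v : ℝ, |v| ≤ |u + v| + |u| := by
      intro u v
      have := abs_sub (u + v) u
      rwa [add_sub_cancel_left] at this
    refine (htri ((quadraticChar K ((lExtBound_f K (algebraMap (ZMod p) K a)
        (algebraMap (ZMod p) K b) c (p - 1)).eval 0) : ℤ) : ℝ) _).trans ?_
    have hp1 : ((2 * (p - 1) : ℕ) : ℝ) = 2 * ((p : ℝ) - 1) := by
      rw [Nat.cast_mul, Nat.cast_sub (by omega)]
      norm_num
    rw [hp1] at hst
    refine (add_le_add hst h0).trans ?_
    have hpR : (0 : ℝ) ≤ p := Nat.cast_nonneg p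
    nlinarith
  have hcard : 0 < (Fintype.card Kˣ : ℝ) := by
    have : 0 < Fintype.card Kˣ := Fintype.card_pos
    exact_mod_cast this
  have hfin : (Fintype.card Kˣ : ℝ) * ‖∑ x : Kˣ, T x‖ ≤
      (Fintype.card Kˣ : ℝ) * ((40 * p + 41) * √(Fintype.card K : ℝ)) := by
    have h1 : (Fintype.card Kˣ : ℝ) * ‖∑ x : Kˣ, T x‖ =
        ‖(Fintype.card Kˣ : ℂ) * ∑ x : Kˣ, T x‖ := by
      rw [norm_mul]
      simp
    rw [h1, hkey]
    refine (norm_sum_le _ _).trans ?_
    calc ∑ c : Kˣ, ‖ψ (Algebra.norm (ZMod p) (c : K)) * ∑ z : Kˣ,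
        ((quadraticChar K ((lExtBound_f K (algebraMap (ZMod p) K a) (algebraMap (ZMod p) K b) c
          (p - 1)).eval (z : K)) : ℤ) : ℂ)‖ ≤ ∑ _c : Kˣ, (40 * p + 41) * √(Fintype.card K : ℝ) := by
          apply Finset.sum_le_sum
          intro c _
          rw [norm_mul]
          have h2 := DirichletCharacter.norm_le_one ψ (Algebra.norm (ZMod p) (c : K))
          calc ‖ψ (Algebra.norm (ZMod p) (c : K))‖ * _ ≤ 1 * ((40 * p + 41) * √(Fintype.card K : ℝ)) :=
                mul_le_mul h2 (hin c) (norm_nonneg _) zero_le_one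
            _ = _ := one_mul _
      _ = _ := by rw [Finset.sum_const, Finset.card_univ, nsmul_eq_mul]
  exact le_of_mul_le_mul_left hfin hcard

end Pool.Agent.Lib.MP_6179b0_nt.W
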