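import Mathlib

/-!
# A linear recurrence with small solutions has small roots
-/

set_option autoImplicit false

namespace Pool.Agent.Lib.MP_6179b0_nt.W

open Filter Topology

theorem LGrowth_aux (w₁ w₂ : ℂ) (ρ C : ℝ) (hρ : 0 < ρ)
    (hS : ∀ n, 1 ≤ n → ‖w₁ ^ n + w₂ ^ n‖ ≤ C * ρ ^ n) : ‖w₁‖ ≤ ρ := by
  by_contra hcon
  rw [not_le] at hcon
  have hw : 0 < ‖w₁‖ := hρ.trans hcon
  have hw0 : w₁ ≠ 0 := norm_pos_iff.mp hw
  set z := w₂ / w₁ with hz
  have hzn : Tendsto (fun n : ℕ => z ^ n) atTop (𝓝 (-1)) := by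
    rw [tendsto_iff_norm_sub_tendsto_zero]
    have hgeo : Tendsto (fun n : ℕ => C * (ρ / ‖w₁‖) ^ n) atTop (𝓝 (C * 0)) := by
      apply Tendsto.const_mul
      apply tendsto_pow_atTop_nhds_zero_of_lt_one (by positivity)
      rw [div_lt_one hw]
      exact hcon
    rw [mul_zero] at hgeo
    refine tendsto_of_tendsto_of_tendsto_of_le_of_le' tendsto_const_nhds hgeo
      (Eventually.of_forall fun n => norm_nonneg _) ?_
    filter_upwards [eventually_ge_atTop 1] with n hn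
    have h1 : z ^ n - -1 = (w₁ ^ n + w₂ ^ n) / w₁ ^ n := by
      rw [hz, div_pow]
      field_simp
      ring
    rw [h1, norm_div, norm_pow, div_pow, ← mul_div_assoc]
    apply div_le_div_of_nonneg_right (hS n hn) (by positivity)
  have hz1 : Tendsto (fun n : ℕ => z ^ (n + 1)) atTop (𝓝 (-1)) :=
    hzn.comp (tendsto_add_atTop_nat 1)
  have hz2 : Tendsto (fun n : ℕ => z ^ (n + 1)) atTop (𝓝 (z * (-1))) := by
    simp_rw [pow_succ']
    exact hzn.const_mul z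
  have hz3 : z = 1 := by
    have := tendsto_nhds_unique hz1 hz2
    linear_combination this
  rw [hz3] at hzn
  simp only [one_pow] at hzn
  have := tendsto_nhds_unique hzn tendsto_const_nhds
  norm_num at this

theorem growth (c₁ c₂ : ℂ) (S : ℕ → ℂ) (h1 : S 1 = c₁) (h2 : 2 * c₂ = S 1 * c₁ + S 2)
    (hrec : ∀ n, 3 ≤ n → S n + c₁ * S (n - 1) + c₂ * S (n - 2) = 0)
    (ρ C : ℝ) (hρ : 0 < ρ) (hS : ∀ n, 1 ≤ n → ‖S n‖ ≤ C * ρ ^ n) : ‖c₁‖ ≤ 2 * ρ := by
  obtain ⟨s, hs⟩ := IsAlgClosed.exists_pow_nat_eq (c₁ ^ 2 - 4 * c₂) (n := 2) (by norm_num)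
  obtain ⟨w₁, w₂, hsum, hprod⟩ : ∃ w₁ w₂ : ℂ, w₁ + w₂ = -c₁ ∧ w₁ * w₂ = c₂ :=
    ⟨(-c₁ + s) / 2, (-c₁ - s) / 2, by ring, by linear_combination (-1 / 4 : ℂ) * hs⟩
  have hSn : ∀ n, 1 ≤ n → S n = -(w₁ ^ n + w₂ ^ n) := by
    intro n
    induction n using Nat.strong_induction_on with
    | _ n ih =>
      intro hn
      obtain rfl | rfl | h3 : n = 1 ∨ n = 2 ∨ 3 ≤ n := by omega
      · rw [h1, pow_one, pow_one, hsum, neg_neg]
      · rw [h1] at h2
        linear_combination -h2 - 2 * hprod + (w₁ + w₂ - c₁) * hsum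
      · obtain ⟨m, rfl⟩ : ∃ m, n = m + 3 := ⟨n - 3, by omega⟩
        have e := hrec (m + 3) h3
        have e1 := ih (m + 2) (by omega) (by omega)
        have e2 := ih (m + 1) (by omega) (by omega)
        have q1 : m + 3 - 1 = m + 2 := by omega
        have q2 : m + 3 - 2 = m + 1 := by omega
        rw [q1, q2, e1, e2] at e
        have hc1 : c₁ = -(w₁ + w₂) := by rw [hsum, neg_neg]
        rw [hc1, ← hprod] at e
        linear_combination e
  have hS' : ∀ n, 1 ≤ n → ‖w₁ ^ n + w₂ ^ n‖ ≤ C * ρ ^ n := by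
    intro n hn
    have := hS n hn
    rwa [hSn n hn, norm_neg] at this
  have hc : ‖c₁‖ ≤ ‖w₁‖ + ‖w₂‖ := by
    have : ‖c₁‖ = ‖w₁ + w₂‖ := by rw [hsum, norm_neg]
    rw [this]
    exact norm_add_le _ _
  have := LGrowth_aux w₁ w₂ ρ C hρ hS'
  have := LGrowth_aux w₂ w₁ ρ C hρ (fun n hn => by rw [add_comm]; exact hS' n hn)
  linarith

end Pool.Agent.Lib.MP_6179b0_nt.W
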