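import Mathlib
import Pool.Agent.Lib.MP_6179b0_nt.W.LDefs

/-!
# Newton identity (logarithmic derivative of the Euler product)
-/

set_option autoImplicit false

namespace Pool.Agent.Lib.MP_6179b0_nt.W

open Polynomial Finset

variable (p : ℕ) [Fact p.Prime]

theorem LNewton_gq_natDegree (a b : ZMod p) : (gq p a b).natDegree ≤ 2 := by
  unfold gq
  compute_degree

theorem Xc_mul (a b : ZMod p) (ψ : DirichletCharacter ℂ p) (h₁ h₂ : (ZMod p)[X])
    (m₁ : h₁.Monic) (m₂ : h₂.Monic) : Xc p a b ψ (h₁ * h₂) = Xc p a b ψ h₁ * Xc p a b ψ h₂ := by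
  unfold Xc
  rw [m₁.natDegree_mul m₂, resultant_mul_left _ _ _ _ (LNewton_gq_natDegree p a b), map_mul,
    mul_coeff_zero, pow_add]
  rw [show ((-1 : ZMod p) ^ h₁.natDegree * (-1) ^ h₂.natDegree * (h₁.coeff 0 * h₂.coeff 0)) =
    ((-1) ^ h₁.natDegree * h₁.coeff 0) * ((-1) ^ h₂.natDegree * h₂.coeff 0) by ring, map_mul]
  push_cast
  ring

theorem LNewton_Xc_one (a b : ZMod p) (ψ : DirichletCharacter ℂ p) : Xc p a b ψ 1 = 1 := by
  unfold Xc
  simp

theorem LNewton_Xc_pow (a b : ZMod p) (ψ : DirichletCharacter ℂ p) (h : (ZMod p)[X])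
    (m : h.Monic) (e : ℕ) : Xc p a b ψ (h ^ e) = Xc p a b ψ h ^ e := by
  induction e with
  | zero => simp [LNewton_Xc_one]
  | succ e ih => rw [pow_succ, Xc_mul p a b ψ _ _ (m.pow e) m, ih, pow_succ]

theorem LNewton_mon_deg (n : ℕ) (v : Fin n → ZMod p) :
    (∑ i : Fin n, C (v i) * X ^ (i : ℕ) : (ZMod p)[X]).degree < (n : WithBot ℕ) := by
  rw [Polynomial.degree_lt_iff_coeff_zero]
  intro m hm
  rw [Polynomial.finset_sum_coeff]
  apply Finset.sum_eq_zero
  intro i _
  rw [Polynomial.coeff_C_mul_X_pow]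
  rw [if_neg]
  have := i.2
  omega

theorem LNewton_mon_monic (n : ℕ) (v : Fin n → ZMod p) : (mon p n v).Monic := by
  unfold mon
  exact Polynomial.monic_X_pow_add (LNewton_mon_deg p n v)

theorem LNewton_mon_natDegree (n : ℕ) (v : Fin n → ZMod p) : (mon p n v).natDegree = n := by
  apply Polynomial.natDegree_eq_of_degree_eq_some
  unfold mon
  rw [Polynomial.degree_add_eq_left_of_degree_lt, Polynomial.degree_X_pow]
  rw [Polynomial.degree_X_pow]
  exact LNewton_mon_deg p n v

theorem LNewton_mon_coeff (n : ℕ) (v : Fin n → ZMod p) (i : Fin n) :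
    (mon p n v).coeff i = v i := by
  unfold mon
  rw [Polynomial.coeff_add, Polynomial.finset_sum_coeff, Polynomial.coeff_X_pow, if_neg i.2.ne,
    zero_add, Finset.sum_eq_single i]
  · simp
  · intro j _ hj
    rw [Polynomial.coeff_C_mul_X_pow, if_neg]
    intro h
    exact hj (Fin.ext h.symm)
  · simp

theorem LNewton_mon_inj (n : ℕ) : Function.Injective (mon p n) := by
  intro v w h
  funext i
  rw [← LNewton_mon_coeff p n v i, ← LNewton_mon_coeff p n w i, h]

theorem LNewton_mon_surj (n : ℕ) (h : (ZMod p)[X]) (hm : h.Monic) (hd : h.natDegree = n) :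
    mon p n (fun i => h.coeff i) = h := by
  ext m
  rcases lt_trichotomy m n with hlt | heq | hgt
  · exact LNewton_mon_coeff p n _ ⟨m, hlt⟩
  · subst heq
    have h1 := LNewton_mon_monic p m (fun i => h.coeff i)
    rw [Polynomial.Monic.def, Polynomial.leadingCoeff, LNewton_mon_natDegree] at h1
    rw [h1]
    have h2 := hm
    rw [Polynomial.Monic.def, Polynomial.leadingCoeff, hd] at h2
    exact h2.symm
  · rw [Polynomial.coeff_eq_zero_of_natDegree_lt, Polynomial.coeff_eq_zero_of_natDegree_lt]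
    · omega
    · rw [LNewton_mon_natDegree]; omega

open Classical in
/-- the finset of monic polynomials of degree `n` -/
noncomputable def LNewtonM (n : ℕ) : Finset (ZMod p)[X] := univ.image (mon p n)

theorem LNewton_mem_M (n : ℕ) (h : (ZMod p)[X]) :
    h ∈ LNewtonM p n ↔ h.Monic ∧ h.natDegree = n := by
  unfold LNewtonM
  simp only [Finset.mem_image, Finset.mem_univ, true_and]
  constructor
  · rintro ⟨v, rfl⟩
    exact ⟨LNewton_mon_monic p n v, LNewton_mon_natDegree p n v⟩
  · rintro ⟨h1, h2⟩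
    exact ⟨_, LNewton_mon_surj p n h h1 h2⟩

theorem LNewton_csum (a b : ZMod p) (ψ : DirichletCharacter ℂ p) (n : ℕ) :
    csum p a b ψ n = ∑ h ∈ LNewtonM p n, Xc p a b ψ h := by
  classical
  unfold csum LNewtonM
  rw [Finset.sum_image]
  intro x _ y _ hxy
  exact LNewton_mon_inj p n hxy

open Classical in
/-- the finset of monic irreducible polynomials of degree `n` -/
noncomputable def LNewtonI (n : ℕ) : Finset (ZMod p)[X] := (LNewtonM p n).filter Irreducible

open Classical in
theorem LNewton_mem_I (n : ℕ) (h : (ZMod p)[X]) :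
    h ∈ LNewtonI p n ↔ (h.Monic ∧ h.natDegree = n) ∧ Irreducible h := by
  unfold LNewtonI
  rw [Finset.mem_filter, LNewton_mem_M]

open Classical in
theorem LNewton_ssum (a b : ZMod p) (ψ : DirichletCharacter ℂ p) (n : ℕ) :
    ssum p a b ψ n = ∑ d ∈ n.divisors, ∑ P ∈ LNewtonI p d, (d : ℂ) * Xc p a b ψ P ^ (n / d) := by
  unfold ssum
  apply Finset.sum_congr rfl
  intro d _
  unfold LNewtonI LNewtonM
  rw [Finset.filter_image, Finset.sum_image]
  · intro x _ y _ hxy
    exact LNewton_mon_inj p d hxy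

/-- sum over the multiples of a monic polynomial -/
theorem LNewton_sum_dvd (a b : ZMod p) (ψ : DirichletCharacter ℂ p) (n k : ℕ) (Q : (ZMod p)[X])
    (hQ : Q.Monic) (hd : Q.natDegree = k) (hk : k ≤ n) :
    ∑ h ∈ LNewtonM p n, (open Classical in if Q ∣ h then Xc p a b ψ h else 0) =
      Xc p a b ψ Q * csum p a b ψ (n - k) := by
  classical
  rw [LNewton_csum, Finset.mul_sum, ← Finset.sum_filter]
  symm
  apply Finset.sum_bij (fun g _ => Q * g)
  · intro g hg
    rw [LNewton_mem_M] at hg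
    rw [Finset.mem_filter, LNewton_mem_M]
    refine ⟨⟨hQ.mul hg.1, ?_⟩, dvd_mul_right _ _⟩
    rw [hQ.natDegree_mul hg.1, hd, hg.2]
    omega
  · intro g _ g' _ h
    exact mul_left_cancel₀ hQ.ne_zero h
  · intro h hh
    rw [Finset.mem_filter, LNewton_mem_M] at hh
    obtain ⟨⟨h1, h2⟩, g, rfl⟩ := hh
    have hg : g.Monic := hQ.of_mul_monic_left h1
    refine ⟨g, ?_, rfl⟩
    rw [LNewton_mem_M]
    refine ⟨hg, ?_⟩
    rw [hQ.natDegree_mul hg, hd] at h2
    omega
  · intro g hg
    rw [LNewton_mem_M] at hg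
    rw [Xc_mul p a b ψ Q g hQ hg.1]

theorem LNewton_count_le (n : ℕ) (h P : (ZMod p)[X]) (hh : h.Monic) (hd : h.natDegree = n)
    (hP : Irreducible P) (hPm : P.Monic) :
    (∑ e ∈ Finset.Icc 1 n, (open Classical in if P ^ e ∣ h then (1 : ℕ) else 0)) =
      (open Classical in (UniqueFactorizationMonoid.normalizedFactors h).count P) := by
  classical
  have hne : h ≠ 0 := hh.ne_zero
  have key : ∀ e, P ^ e ∣ h ↔ e ≤ (UniqueFactorizationMonoid.normalizedFactors h).count P := by
    intro e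
    rw [UniqueFactorizationMonoid.dvd_iff_normalizedFactors_le_normalizedFactors
      (pow_ne_zero _ hPm.ne_zero) hne, UniqueFactorizationMonoid.normalizedFactors_pow,
      UniqueFactorizationMonoid.normalizedFactors_irreducible hP, hPm.normalize_eq_self,
      Multiset.nsmul_singleton, Multiset.le_count_iff_replicate_le]
  have hle : (UniqueFactorizationMonoid.normalizedFactors h).count P ≤ n := by
    have h1 : P ^ ((UniqueFactorizationMonoid.normalizedFactors h).count P) ∣ h := (key _).2 le_rfl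
    have h2 := Polynomial.natDegree_le_of_dvd h1 hne
    rw [hPm.natDegree_pow, hd] at h2
    have h3 : 0 < P.natDegree := hP.natDegree_pos
    nlinarith
  have h5 : (Finset.filter (fun e => P ^ e ∣ h) (Finset.Icc 1 n)) =
    Finset.Icc 1 ((UniqueFactorizationMonoid.normalizedFactors h).count P) := by
      ext e
      simp only [Finset.mem_filter, Finset.mem_Icc, key e]
      omega
  rw [← Finset.card_filter, h5]
  simp

theorem LNewton_deg (n : ℕ) (h : (ZMod p)[X]) (hh : h.Monic) (hd : h.natDegree = n) :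
    ∑ d ∈ Finset.Icc 1 n, ∑ P ∈ LNewtonI p d, ∑ e ∈ Finset.Icc 1 n,
      (open Classical in if P ^ e ∣ h then d else 0) = n := by
  classical
  have hne : h ≠ 0 := hh.ne_zero
  have step1 : ∑ d ∈ Finset.Icc 1 n, ∑ P ∈ LNewtonI p d, ∑ e ∈ Finset.Icc 1 n,
      (if P ^ e ∣ h then d else 0) = ∑ d ∈ Finset.Icc 1 n, ∑ P ∈ LNewtonI p d,
        (UniqueFactorizationMonoid.normalizedFactors h).count P * P.natDegree := by
    apply Finset.sum_congr rfl
    intro d _
    apply Finset.sum_congr rfl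
    intro P hP
    rw [LNewton_mem_I] at hP
    rw [← LNewton_count_le p n h P hh hd hP.2 hP.1.1, Finset.sum_mul]
    apply Finset.sum_congr rfl
    intro e _
    rw [hP.1.2]
    split_ifs <;> simp
  rw [step1]
  have step2 : ∑ d ∈ Finset.Icc 1 n, ∑ P ∈ LNewtonI p d,
        (UniqueFactorizationMonoid.normalizedFactors h).count P * P.natDegree =
      ∑ P ∈ (Finset.Icc 1 n).biUnion (fun d => LNewtonI p d),
        (UniqueFactorizationMonoid.normalizedFactors h).count P * P.natDegree := by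
    rw [Finset.sum_biUnion]
    intro d _ d' _ hdd
    rw [Function.onFun, Finset.disjoint_left]
    intro P hP hP'
    rw [LNewton_mem_I] at hP hP'
    exact hdd (hP.1.2.symm.trans hP'.1.2)
  rw [step2]
  have hsub : (UniqueFactorizationMonoid.normalizedFactors h).toFinset ⊆
      (Finset.Icc 1 n).biUnion (fun d => LNewtonI p d) := by
    intro P hP
    rw [Multiset.mem_toFinset] at hP
    rw [Finset.mem_biUnion]
    have hirr := UniqueFactorizationMonoid.irreducible_of_normalized_factor P hP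
    have hmon : P.Monic := by
      have := UniqueFactorizationMonoid.normalize_normalized_factor P hP
      rw [← this]
      exact Polynomial.monic_normalize hirr.ne_zero
    have hdvd := UniqueFactorizationMonoid.dvd_of_mem_normalizedFactors hP
    refine ⟨P.natDegree, ?_, ?_⟩
    · rw [Finset.mem_Icc]
      refine ⟨hirr.natDegree_pos, ?_⟩
      rw [← hd]
      exact Polynomial.natDegree_le_of_dvd hdvd hne
    · rw [LNewton_mem_I]
      exact ⟨⟨hmon, rfl⟩, hirr⟩
  rw [← Finset.sum_subset hsub]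
  · have h1 : (UniqueFactorizationMonoid.normalizedFactors h).prod = h := by
      rw [UniqueFactorizationMonoid.prod_normalizedFactors_eq hne, hh.normalize_eq_self]
    have h2 : h.natDegree =
        ((UniqueFactorizationMonoid.normalizedFactors h).map Polynomial.natDegree).sum := by
      conv_lhs => rw [← h1]
      apply Polynomial.natDegree_multiset_prod
      intro h0
      exact (UniqueFactorizationMonoid.irreducible_of_normalized_factor _ h0).ne_zero rfl
    rw [← hd, h2, Finset.sum_multiset_map_count]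
    simp
  · intro P _ hP
    rw [Multiset.mem_toFinset] at hP
    rw [Multiset.count_eq_zero.2 hP, zero_mul]

theorem LNewton_index (n : ℕ) (F : ℕ → ℕ → ℂ) :
    ∑ i ∈ Finset.Icc 1 n, ∑ d ∈ i.divisors, F d (i / d) =
      ∑ d ∈ Finset.Icc 1 n, ∑ e ∈ Finset.Icc 1 n, if d * e ≤ n then F d e else 0 := by
  rw [Finset.sum_sigma', ← Finset.sum_product', ← Finset.sum_filter]
  refine Finset.sum_bij' (fun x _ => (x.2, x.1 / x.2)) (fun y _ => ⟨y.1 * y.2, y.1⟩) ?_ ?_ ?_ ?_ ?_
  · rintro ⟨i, d⟩ h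
    simp only [Finset.mem_sigma, Finset.mem_Icc, Nat.mem_divisors] at h
    obtain ⟨⟨h1, h2⟩, ⟨e, rfl⟩, h3⟩ := h
    have hd0 : 0 < d := Nat.pos_of_ne_zero (by rintro rfl; simp at h3)
    have he0 : 0 < e := Nat.pos_of_ne_zero (by rintro rfl; simp at h3)
    simp only [Finset.mem_filter, Finset.mem_product, Finset.mem_Icc]
    rw [Nat.mul_div_cancel_left _ hd0]
    refine ⟨⟨⟨hd0, ?_⟩, he0, ?_⟩, h2⟩
    · nlinarith
    · nlinarith
  · rintro ⟨d, e⟩ h
    simp only [Finset.mem_filter, Finset.mem_product, Finset.mem_Icc] at h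
    obtain ⟨⟨⟨h1, h2⟩, h3, h4⟩, h5⟩ := h
    simp only [Finset.mem_sigma, Finset.mem_Icc, Nat.mem_divisors]
    refine ⟨⟨Nat.mul_pos h1 h3, h5⟩, dvd_mul_right _ _, ?_⟩
    exact (Nat.mul_pos h1 h3).ne'
  · rintro ⟨i, d⟩ h
    simp only [Finset.mem_sigma, Finset.mem_Icc, Nat.mem_divisors] at h
    obtain ⟨⟨h1, h2⟩, hd, h3⟩ := h
    simp only [Nat.mul_div_cancel' hd]
  · rintro ⟨d, e⟩ h
    simp only [Finset.mem_filter, Finset.mem_product, Finset.mem_Icc] at h
    obtain ⟨⟨⟨h1, h2⟩, h3, h4⟩, h5⟩ := h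
    simp only [Nat.mul_div_cancel_left _ h1]
  · rintro ⟨i, d⟩ h
    rfl

theorem newton (a b : ZMod p) (ψ : DirichletCharacter ℂ p) (n : ℕ) :
    (n : ℂ) * csum p a b ψ n = ∑ i ∈ Finset.Icc 1 n, ssum p a b ψ i * csum p a b ψ (n - i) := by
  classical
  have hR : ∑ i ∈ Finset.Icc 1 n, ssum p a b ψ i * csum p a b ψ (n - i) =
      ∑ i ∈ Finset.Icc 1 n, ∑ d ∈ i.divisors, ∑ P ∈ LNewtonI p d,
        ((d : ℂ) * Xc p a b ψ P ^ (i / d)) * csum p a b ψ (n - d * (i / d)) := by
    apply Finset.sum_congr rfl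
    intro i _
    rw [LNewton_ssum, Finset.sum_mul]
    apply Finset.sum_congr rfl
    intro d hd
    rw [Finset.sum_mul]
    rw [Nat.mul_div_cancel' (Nat.dvd_of_mem_divisors hd)]
  rw [hR, LNewton_index n (fun d e => ∑ P ∈ LNewtonI p d,
        ((d : ℂ) * Xc p a b ψ P ^ e) * csum p a b ψ (n - d * e))]
  have hL : (n : ℂ) * csum p a b ψ n = ∑ h ∈ LNewtonM p n,
      ∑ d ∈ Finset.Icc 1 n, ∑ P ∈ LNewtonI p d, ∑ e ∈ Finset.Icc 1 n,
        (if P ^ e ∣ h then (d : ℂ) * Xc p a b ψ h else 0) := by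
    rw [LNewton_csum, Finset.mul_sum]
    apply Finset.sum_congr rfl
    intro h hh
    rw [LNewton_mem_M] at hh
    have := LNewton_deg p n h hh.1 hh.2
    have h2 : (n : ℂ) = ∑ d ∈ Finset.Icc 1 n, ∑ P ∈ LNewtonI p d, ∑ e ∈ Finset.Icc 1 n,
      (if P ^ e ∣ h then (d : ℂ) else 0) := by
      conv_lhs => rw [← this]
      push_cast
      rfl
    rw [h2, Finset.sum_mul]
    apply Finset.sum_congr rfl
    intro d _
    rw [Finset.sum_mul]
    apply Finset.sum_congr rfl
    intro P _
    rw [Finset.sum_mul]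
    apply Finset.sum_congr rfl
    intro e _
    split_ifs <;> simp
  rw [hL, Finset.sum_comm]
  apply Finset.sum_congr rfl
  intro d hd
  have : ∀ e ∈ Finset.Icc 1 n, (if d * e ≤ n then ∑ P ∈ LNewtonI p d,
        ((d : ℂ) * Xc p a b ψ P ^ e) * csum p a b ψ (n - d * e) else 0) =
      ∑ P ∈ LNewtonI p d, ∑ h ∈ LNewtonM p n,
        (if P ^ e ∣ h then (d : ℂ) * Xc p a b ψ h else 0) := by
    intro e he
    by_cases hde : d * e ≤ n
    · rw [if_pos hde]
      apply Finset.sum_congr rfl
      intro P hP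
      rw [LNewton_mem_I] at hP
      have h1 := LNewton_sum_dvd p a b ψ n (d * e) (P ^ e) (hP.1.1.pow e)
        (by rw [hP.1.1.natDegree_pow, hP.1.2, mul_comm]) hde
      rw [LNewton_Xc_pow p a b ψ P hP.1.1] at h1
      rw [mul_assoc, ← h1, Finset.mul_sum]
      apply Finset.sum_congr rfl
      intro h _
      split_ifs <;> simp
    · rw [if_neg hde]
      symm
      apply Finset.sum_eq_zero
      intro P hP
      apply Finset.sum_eq_zero
      intro h hh
      rw [LNewton_mem_I] at hP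
      rw [LNewton_mem_M] at hh
      rw [if_neg]
      intro hdvd
      have := Polynomial.natDegree_le_of_dvd hdvd hh.1.ne_zero
      rw [hP.1.1.natDegree_pow, hP.1.2, hh.2, mul_comm] at this
      exact hde this
  rw [Finset.sum_congr rfl this, Finset.sum_comm]
  symm
  rw [Finset.sum_comm]
  apply Finset.sum_congr rfl
  intro P _
  rw [Finset.sum_comm]

end Pool.Agent.Lib.MP_6179b0_nt.W
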