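import Mathlib
import Pool.Agent.Lib.MP_6179b0_nt.W.LDefs

/-!
# The coefficients of the `L`-function vanish from degree three on
-/

set_option autoImplicit false

namespace Pool.Agent.Lib.MP_6179b0_nt.W

open Polynomial Finset

variable (p : ℕ) [Fact p.Prime]

/-! ## the sum of the quadratic character over a quadratic form -/
theorem LVanish_two (hp : p ≠ 2) : (2 : ZMod p) ≠ 0 := by
  intro h
  have h1 : ((2 : ℕ) : ZMod p) = 0 := by exact_mod_cast h
  rw [ZMod.natCast_eq_zero_iff] at h1
  have h2 := Nat.le_of_dvd (by norm_num) h1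
  have := (Fact.out : p.Prime).two_le
  omega

theorem LVanish_ring (hp : p ≠ 2) : ringChar (ZMod p) ≠ 2 := by
  rw [ZMod.ringChar_zmod_n]
  exact hp

theorem LVanish_hyp (hp : p ≠ 2) (e : ZMod p) (he : e ≠ 0) :
    ∑ w : ZMod p, quadraticChar (ZMod p) (w ^ 2 - e) = -1 := by
  classical
  have h2 := LVanish_two p hp
  have h1 : ∑ w : ZMod p, (quadraticChar (ZMod p) (w ^ 2 - e) + 1) =
      ((univ.filter fun x : ZMod p × ZMod p => x.2 ^ 2 = x.1 ^ 2 - e).card : ℤ) := by
    have e1 : (univ.filter fun x : ZMod p × ZMod p => x.2 ^ 2 = x.1 ^ 2 - e).card =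
        ∑ w : ZMod p, (univ.filter fun v : ZMod p => v ^ 2 = w ^ 2 - e).card := by
      simp only [Finset.card_filter]
      rw [← Finset.univ_product_univ, Finset.sum_product]
    rw [e1]
    push_cast
    refine Finset.sum_congr rfl fun w _ => ?_
    rw [← quadraticChar_card_sqrts (LVanish_ring p hp) (w ^ 2 - e)]
    congr 2
    ext v
    simp
  have h3 : (univ.filter fun x : ZMod p × ZMod p => x.2 ^ 2 = x.1 ^ 2 - e).card =
      (univ.filter fun s : ZMod p => s ≠ 0).card := by
    symm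
    refine Finset.card_nbij' (fun s => ((s + e / s) / 2, (e / s - s) / 2)) (fun x => x.1 - x.2)
      ?_ ?_ ?_ ?_
    · intro s hs
      simp only [coe_filter, mem_univ, true_and, Set.mem_ofPred_eq] at hs ⊢
      field_simp
      ring
    · intro x hx
      simp only [coe_filter, mem_univ, true_and, Set.mem_ofPred_eq] at hx ⊢
      intro h
      apply he
      have : (x.1 - x.2) * (x.1 + x.2) = e := by linear_combination -hx
      rw [← this, h, zero_mul]
    · intro s hs
      simp only [coe_filter, mem_univ, true_and, Set.mem_ofPred_eq] at hs ⊢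
      field_simp
      ring
    · intro x hx
      simp only [coe_filter, mem_univ, true_and, Set.mem_ofPred_eq] at hx ⊢
      have h4 : (x.1 - x.2) * (x.1 + x.2) = e := by linear_combination -hx
      have h5 : x.1 - x.2 ≠ 0 := by
        intro h
        apply he
        rw [← h4, h, zero_mul]
      have h6 : e / (x.1 - x.2) = x.1 + x.2 := by
        rw [div_eq_iff h5, ← h4]
        ring
      rw [h6]
      ext
      · simp only
        field_simp
        ring
      · simp only
        field_simp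
        ring
  have h4 : (univ.filter fun s : ZMod p => s ≠ 0).card = p - 1 := by
    rw [Finset.filter_ne', Finset.card_erase_of_mem (mem_univ _), Finset.card_univ, ZMod.card]
  rw [h3, h4, Finset.sum_add_distrib] at h1
  simp only [sum_const, card_univ, ZMod.card, nsmul_eq_mul, mul_one] at h1
  have h5 : ((p - 1 : ℕ) : ℤ) = (p : ℤ) - 1 := by
    have := (Fact.out : p.Prime).one_le
    push_cast [Nat.cast_sub this]
    ring
  rw [h5] at h1
  linarith

theorem LVanish_quad (hp : p ≠ 2) (a b : ZMod p) (hab : a ^ 2 ≠ 4 * b) :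
    ∑ z : ZMod p, quadraticChar (ZMod p) (z ^ 2 - a * z + b) = -1 := by
  have h2 := LVanish_two p hp
  have h4 : (4 : ZMod p) ≠ 0 := by
    have : (4 : ZMod p) = 2 * 2 := by norm_num
    rw [this]
    exact mul_ne_zero h2 h2
  have he : (a ^ 2 - 4 * b) / 4 ≠ 0 := div_ne_zero (sub_ne_zero.2 hab) h4
  rw [← LVanish_hyp p hp _ he]
  rw [← Equiv.sum_comp (Equiv.addRight (a / 2)) fun z : ZMod p =>
    quadraticChar (ZMod p) (z ^ 2 - a * z + b)]
  refine Finset.sum_congr rfl fun w _ => ?_
  congr 1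
  simp only [Equiv.coe_addRight]
  field_simp
  ring

theorem LVanish_form (hp : p ≠ 2) (a b : ZMod p) (hab : a ^ 2 ≠ 4 * b) :
    ∑ x : ZMod p, ∑ y : ZMod p, quadraticChar (ZMod p) (y ^ 2 - a * x * y + b * x ^ 2) = 0 := by
  classical
  have h0 : ∑ y : ZMod p, quadraticChar (ZMod p) (y ^ 2 - a * 0 * y + b * 0 ^ 2) = (p : ℤ) - 1 := by
    have e1 : ∀ y : ZMod p, quadraticChar (ZMod p) (y ^ 2 - a * 0 * y + b * 0 ^ 2) =
        if y = 0 then 0 else 1 := by
      intro y
      have : y ^ 2 - a * 0 * y + b * 0 ^ 2 = y ^ 2 := by ring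
      rw [this]
      split_ifs with h
      · rw [h]
        simp
      · exact quadraticChar_sq_one' h
    simp only [e1]
    have e2 : ∑ y : ZMod p, (if y = 0 then (0 : ℤ) else 1) =
        ∑ y : ZMod p, (1 - if y = 0 then (1 : ℤ) else 0) := by
      refine Finset.sum_congr rfl fun y _ => ?_
      split_ifs <;> norm_num
    rw [e2, Finset.sum_sub_distrib]
    simp [ZMod.card]
  have h1 : ∀ x : ZMod p, x ≠ 0 →
      ∑ y : ZMod p, quadraticChar (ZMod p) (y ^ 2 - a * x * y + b * x ^ 2) = -1 := by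
    intro x hx
    rw [← LVanish_quad p hp a b hab]
    rw [← Equiv.sum_comp (Equiv.mulLeft₀ x hx) fun y : ZMod p =>
      quadraticChar (ZMod p) (y ^ 2 - a * x * y + b * x ^ 2)]
    refine Finset.sum_congr rfl fun z _ => ?_
    have : (Equiv.mulLeft₀ x hx z) ^ 2 - a * x * (Equiv.mulLeft₀ x hx z) + b * x ^ 2 =
        x ^ 2 * (z ^ 2 - a * z + b) := by
      simp only [Equiv.mulLeft₀_apply]
      ring
    rw [this, map_mul, quadraticChar_sq_one' hx, one_mul]
  rw [← Finset.add_sum_erase univ _ (mem_univ (0 : ZMod p)), h0]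
  rw [Finset.sum_congr rfl fun x hx => h1 x (Finset.ne_of_mem_erase hx)]
  rw [Finset.sum_const, Finset.card_erase_of_mem (mem_univ _), Finset.card_univ, ZMod.card]
  have := (Fact.out : p.Prime).one_le
  rw [nsmul_eq_mul]
  push_cast [Nat.cast_sub this]
  ring

/-! ## the resultant -/
theorem LVanish_gq_natDegree (a b : ZMod p) : (gq p a b).natDegree = 2 := by
  unfold gq
  compute_degree!

theorem LVanish_gq_coeff (a b : ZMod p) : (gq p a b).coeff 0 = b ∧ (gq p a b).coeff 1 = a ∧
    (gq p a b).coeff 2 = 1 := by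
  unfold gq
  refine ⟨?_, ?_, ?_⟩ <;> simp [coeff_X, coeff_C]

theorem LVanish_gq_monic (a b : ZMod p) : (gq p a b).Monic := by
  rw [Monic, leadingCoeff, LVanish_gq_natDegree, (LVanish_gq_coeff p a b).2.2]

theorem LVanish_res_lin (a b u w : ZMod p) :
    resultant (C u * X + C w) (gq p a b) 1 2 = w ^ 2 - a * u * w + b * u ^ 2 := by
  obtain ⟨h0, h1, h2⟩ := LVanish_gq_coeff p a b
  by_cases hu : u = 0
  · rw [hu, C_0, zero_mul, zero_add, resultant_C_left, h2]
    ring
  · have e : C u * X + C w = C u * (X + C (w / u)) := by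
      rw [mul_add, ← C_mul, mul_div_cancel₀ _ hu]
    rw [e, resultant_C_mul_left, resultant_X_add_C_left _ _ _ (LVanish_gq_natDegree p a b).le]
    unfold gq
    simp only [eval_add, eval_mul, eval_pow, eval_X, eval_C]
    field_simp
    ring

theorem LVanish_res (a b u w : ZMod p) (n : ℕ) (hn : 2 ≤ n) (k : (ZMod p)[X])
    (hk : k.natDegree + 2 ≤ n) :
    resultant (C u * X + C w + gq p a b * k) (gq p a b) n 2 = w ^ 2 - a * u * w + b * u ^ 2 := by
  obtain ⟨h0, h1, h2⟩ := LVanish_gq_coeff p a b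
  rw [resultant_add_mul_left _ _ _ _ _ hk (LVanish_gq_natDegree p a b).le]
  obtain ⟨m, rfl⟩ : ∃ m, n = 1 + m := ⟨n - 1, by omega⟩
  rw [resultant_add_left_deg _ _ _ _ _ (by compute_degree), LVanish_res_lin, h2]
  rw [pow_mul]
  ring

theorem LVanish_mon_natDegree (n : ℕ) (v : Fin n → ZMod p) :
    (mon p n v).natDegree = n ∧ (mon p n v).Monic := by
  have h : (∑ i : Fin n, C (v i) * X ^ (i : ℕ)).degree < (n : WithBot ℕ) := degree_sum_fin_lt v
  unfold mon
  constructor
  · rw [natDegree_add_eq_left_of_degree_lt (by rwa [degree_X_pow]), natDegree_X_pow]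
  · exact monic_X_pow_add h

theorem LVanish_mon_coeff (n : ℕ) (hn : 1 ≤ n) (v : Fin n → ZMod p) :
    (mon p n v).coeff 0 = v ⟨0, hn⟩ := by
  unfold mon
  rw [coeff_add, finsetSum_coeff, coeff_X_pow, if_neg (by omega), zero_add]
  rw [Finset.sum_eq_single (⟨0, hn⟩ : Fin n)]
  · simp
  · intro i _ hi
    rw [coeff_C_mul_X_pow, if_neg]
    intro h
    exact hi (Fin.ext h.symm)
  · intro h
    exact absurd (mem_univ _) h

theorem csum_zero (a b : ZMod p) (ψ : DirichletCharacter ℂ p) : csum p a b ψ 0 = 1 := by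
  unfold csum
  rw [Fintype.sum_eq_single (fun i : Fin 0 => (0 : ZMod p))
    (fun v hv => absurd (Subsingleton.elim _ _) hv)]
  have h : mon p 0 (fun i : Fin 0 => (0 : ZMod p)) = 1 := by
    unfold mon
    simp
  rw [h]
  unfold Xc
  simp

/-- the shift of the coefficients of `X` and `X ^ 2` -/
def LVanish_sh (n : ℕ) (s t : ZMod p) (i : Fin n) : ZMod p :=
  if (i : ℕ) = 1 then s else if (i : ℕ) = 2 then t else 0

theorem LVanish_mon_add (n : ℕ) (hn : 3 ≤ n) (v : Fin n → ZMod p) (s t : ZMod p) :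
    mon p n (v + LVanish_sh p n s t) = mon p n v + C s * X + C t * X ^ 2 := by
  unfold mon
  have h : ∑ i : Fin n, C ((v + LVanish_sh p n s t) i) * X ^ (i : ℕ) =
      ∑ i : Fin n, C (v i) * X ^ (i : ℕ) + ∑ i : Fin n, C (LVanish_sh p n s t i) * X ^ (i : ℕ) := by
    rw [← Finset.sum_add_distrib]
    refine Finset.sum_congr rfl fun i _ => ?_
    rw [Pi.add_apply, C_add, add_mul]
  have h2 : ∑ i : Fin n, C (LVanish_sh p n s t i) * X ^ (i : ℕ) = C s * X + C t * X ^ 2 := by
    have e : ∀ i : Fin n, C (LVanish_sh p n s t i) * (X : (ZMod p)[X]) ^ (i : ℕ) =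
        (if i = (⟨1, by omega⟩ : Fin n) then C s * X else 0) +
        (if i = (⟨2, by omega⟩ : Fin n) then C t * X ^ 2 else 0) := by
      intro i
      unfold LVanish_sh
      by_cases h1 : (i : ℕ) = 1
      · have h3 : i = (⟨1, by omega⟩ : Fin n) := Fin.ext h1
        have h4 : i ≠ (⟨2, by omega⟩ : Fin n) := by
          intro h
          have := congrArg Fin.val h
          simp only at this
          omega
        rw [if_pos h1, if_pos h3, if_neg h4, h1, pow_one, add_zero]
      · have h3 : i ≠ (⟨1, by omega⟩ : Fin n) := fun h => h1 (congrArg Fin.val h)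
        rw [if_neg h1, if_neg h3, zero_add]
        by_cases h2 : (i : ℕ) = 2
        · have h4 : i = (⟨2, by omega⟩ : Fin n) := Fin.ext h2
          rw [if_pos h2, if_pos h4, h2]
        · have h4 : i ≠ (⟨2, by omega⟩ : Fin n) := fun h => h2 (congrArg Fin.val h)
          rw [if_neg h2, if_neg h4, C_0, zero_mul]
    simp only [e]
    rw [Finset.sum_add_distrib, Finset.sum_ite_eq', Finset.sum_ite_eq', if_pos (mem_univ _),
      if_pos (mem_univ _)]
  rw [h, h2]
  ring

theorem LVanish_inner (hp : p ≠ 2) (a b : ZMod p) (hb : b ≠ 0) (hab : a ^ 2 ≠ 4 * b)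
    (ψ : DirichletCharacter ℂ p) (n : ℕ) (hn : 3 ≤ n) (v : Fin n → ZMod p) :
    ∑ s : ZMod p, ∑ t : ZMod p, Xc p a b ψ (mon p n (v + LVanish_sh p n s t)) = 0 := by
  obtain ⟨hd, hm⟩ := LVanish_mon_natDegree p n v
  set h := mon p n v with hh
  set g := gq p a b with hg
  have hgm : g.Monic := LVanish_gq_monic p a b
  have hgd : g.natDegree = 2 := LVanish_gq_natDegree p a b
  obtain ⟨u, w, huw⟩ := exists_eq_X_add_C_of_natDegree_le_one (p := h %ₘ g) (by
    have := natDegree_modByMonic_lt h hgm (by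
      intro h1
      rw [h1] at hgd
      simp at hgd)
    omega)
  have hk : (h /ₘ g).natDegree = n - 2 := by rw [natDegree_divByMonic h hgm, hd, hgd]
  have hdec : ∀ s t : ZMod p, h + C s * X + C t * X ^ 2 =
      C (u + s - a * t) * X + C (w - b * t) + g * (h /ₘ g + C t) := by
    intro s t
    have h1 : h %ₘ g + g * (h /ₘ g) = h := modByMonic_add_div h g
    have h2 : h = C u * X + C w + g * (h /ₘ g) := by rw [← huw, h1]
    have h3 : (X : (ZMod p)[X]) ^ 2 = g - C a * X - C b := by
      rw [hg]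
      unfold gq
      ring
    conv_lhs => rw [h2, h3]
    simp only [C_sub, C_add, C_mul]
    ring
  have hX : ∀ s t : ZMod p, Xc p a b ψ (mon p n (v + LVanish_sh p n s t)) =
      ((quadraticChar (ZMod p) ((w - b * t) ^ 2 - a * (u + s - a * t) * (w - b * t)
        + b * (u + s - a * t) ^ 2) : ℤ) : ℂ) * ψ ((-1) ^ n * v ⟨0, by omega⟩) := by
    intro s t
    unfold Xc
    rw [(LVanish_mon_natDegree p n _).1, LVanish_mon_coeff p n (by omega)]
    rw [LVanish_mon_add p n hn v s t, ← hh, hdec s t, ← hg]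
    rw [LVanish_res p a b _ _ n (by omega)]
    · congr 3
      simp [LVanish_sh]
    · have : (h /ₘ g + C t).natDegree ≤ n - 2 := by
        refine natDegree_add_le_of_degree_le hk.le ?_
        rw [natDegree_C]
        exact Nat.zero_le _
      omega
  simp only [hX]
  simp only [← Finset.sum_mul]
  have hz : ∑ s : ZMod p, ∑ t : ZMod p, ((quadraticChar (ZMod p) ((w - b * t) ^ 2
      - a * (u + s - a * t) * (w - b * t) + b * (u + s - a * t) ^ 2) : ℤ) : ℂ) = 0 := by
    rw [Finset.sum_comm]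
    have e1 : ∀ t : ZMod p, ∑ s : ZMod p, ((quadraticChar (ZMod p) ((w - b * t) ^ 2
      - a * (u + s - a * t) * (w - b * t) + b * (u + s - a * t) ^ 2) : ℤ) : ℂ) =
        ∑ x : ZMod p, ((quadraticChar (ZMod p) ((w - b * t) ^ 2
      - a * x * (w - b * t) + b * x ^ 2) : ℤ) : ℂ) := by
      intro t
      rw [← Equiv.sum_comp (Equiv.addRight (u - a * t)) fun x : ZMod p =>
        ((quadraticChar (ZMod p) ((w - b * t) ^ 2 - a * x * (w - b * t) + b * x ^ 2) : ℤ) : ℂ)]
      refine Finset.sum_congr rfl fun s _ => ?_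
      simp only [Equiv.coe_addRight]
      rw [show u + s - a * t = s + (u - a * t) by ring]
    simp only [e1]
    rw [Finset.sum_comm]
    have e2 : ∀ x : ZMod p, ∑ t : ZMod p, ((quadraticChar (ZMod p) ((w - b * t) ^ 2
      - a * x * (w - b * t) + b * x ^ 2) : ℤ) : ℂ) =
        ∑ y : ZMod p, ((quadraticChar (ZMod p) (y ^ 2 - a * x * y + b * x ^ 2) : ℤ) : ℂ) := by
      intro x
      rw [← Equiv.sum_comp ((Equiv.mulLeft₀ (-b) (neg_ne_zero.2 hb)).trans (Equiv.addRight w))
        fun y : ZMod p => ((quadraticChar (ZMod p) (y ^ 2 - a * x * y + b * x ^ 2) : ℤ) : ℂ)]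
      refine Finset.sum_congr rfl fun t _ => ?_
      simp only [Equiv.trans_apply, Equiv.coe_addRight, Equiv.mulLeft₀_apply]
      rw [show w - b * t = -b * t + w by ring]
    simp only [e2]
    have := LVanish_form p hp a b hab
    exact_mod_cast this
  rw [hz, zero_mul]

theorem csum_vanish (hp : p ≠ 2) (a b : ZMod p) (hb : b ≠ 0) (hab : a ^ 2 ≠ 4 * b)
    (ψ : DirichletCharacter ℂ p) (n : ℕ) (hn : 3 ≤ n) : csum p a b ψ n = 0 := by
  have h1 : ∀ s t : ZMod p, ∑ v : Fin n → ZMod p, Xc p a b ψ (mon p n (v + LVanish_sh p n s t)) =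
      csum p a b ψ n := by
    intro s t
    unfold csum
    exact Equiv.sum_comp (Equiv.addRight (LVanish_sh p n s t)) fun v => Xc p a b ψ (mon p n v)
  have h2 : ∑ s : ZMod p, ∑ t : ZMod p, ∑ v : Fin n → ZMod p,
      Xc p a b ψ (mon p n (v + LVanish_sh p n s t)) = 0 := by
    have e1 : ∀ s : ZMod p, ∑ t : ZMod p, ∑ v : Fin n → ZMod p,
      Xc p a b ψ (mon p n (v + LVanish_sh p n s t)) = ∑ v : Fin n → ZMod p, ∑ t : ZMod p,
      Xc p a b ψ (mon p n (v + LVanish_sh p n s t)) := fun s => Finset.sum_comm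
    simp only [e1]
    rw [Finset.sum_comm]
    exact Finset.sum_eq_zero fun v _ => LVanish_inner p hp a b hb hab ψ n hn v
  simp only [h1, sum_const, card_univ, ZMod.card, nsmul_eq_mul] at h2
  have hp0 : (p : ℂ) ≠ 0 := Nat.cast_ne_zero.2 (Fact.out : p.Prime).ne_zero
  rcases mul_eq_zero.1 h2 with h | h
  · exact absurd h hp0
  · rcases mul_eq_zero.1 h with h | h
    · exact absurd h hp0
    · exact h

end Pool.Agent.Lib.MP_6179b0_nt.W
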