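import Mathlib
import Pool.Agent.Lib.MP_6179b0_nt.Defs
import Pool.Agent.Lib.MP_6179b0_nt.Fourth
import Pool.Agent.Lib.MP_6179b0_nt.W.LVanish
import Pool.Agent.Lib.MP_6179b0_nt.W.LNewton
import Pool.Agent.Lib.MP_6179b0_nt.W.LExt
import Pool.Agent.Lib.MP_6179b0_nt.W.LGrowth
import Pool.Agent.Lib.MP_6179b0_nt.W.LExtBound

/-!
# The Weil bound for the mixed sums
-/

set_option autoImplicit false

namespace Pool.Agent.Lib.MP_6179b0_nt.W

open Polynomial Finset

/-- the quadratic character with complex values -/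
noncomputable def chc (p : ℕ) [Fact p.Prime] : DirichletCharacter ℂ p :=
  (quadraticChar (ZMod p)).ringHomComp (Int.castRingHom ℂ)

theorem Weil_inv (p : ℕ) [Fact p.Prime] (x : (ZMod p)ˣ) :
    quadraticChar (ZMod p) ((x⁻¹ : (ZMod p)ˣ) : ZMod p) = quadraticChar (ZMod p) (x : ZMod p) := by
  have h1 : quadraticChar (ZMod p) (x : ZMod p) * quadraticChar (ZMod p) ((x⁻¹ : (ZMod p)ˣ) : ZMod p) = 1 := by
    rw [← map_mul, Units.mul_inv, map_one]
  have h2 : quadraticChar (ZMod p) (x : ZMod p) ^ 2 = 1 := quadraticChar_sq_one x.ne_zero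
  have h3 : quadraticChar (ZMod p) ((x⁻¹ : (ZMod p)ˣ) : ZMod p) =
      quadraticChar (ZMod p) (x : ZMod p) ^ 2 *
        quadraticChar (ZMod p) ((x⁻¹ : (ZMod p)ˣ) : ZMod p) := by rw [h2, one_mul]
  rw [h3, sq, mul_assoc, h1, mul_one]

theorem Weil_sum (p : ℕ) [Fact p.Prime] (a b : ZMod p) (ψ : DirichletCharacter ℂ p) :
    ∑ x : (ZMod p)ˣ, ((quadraticChar (ZMod p)
          ((x : ZMod p) + b * ((x⁻¹ : (ZMod p)ˣ) : ZMod p) + a) : ℤ) : ℂ) * ψ (x : ZMod p) =
      ext p (ZMod p) a b (ψ * chc p) := by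
  unfold ext
  simp only [Algebra.norm_self, MonoidHom.id_apply, Algebra.algebraMap_self, RingHom.id_apply]
  rw [← fourth_sum_units (F := ZMod p) (fun x => ((quadraticChar (ZMod p) (x ^ 2 + a * x + b) : ℤ) : ℂ) *
    (ψ * chc p) x) (by rw [MulChar.map_zero, mul_zero])]
  refine Finset.sum_congr rfl fun x _ => ?_
  have h1 : (x : ZMod p) + b * ((x⁻¹ : (ZMod p)ˣ) : ZMod p) + a =
      ((x⁻¹ : (ZMod p)ˣ) : ZMod p) * ((x : ZMod p) ^ 2 + a * x + b) := by
    have hx : ((x⁻¹ : (ZMod p)ˣ) : ZMod p) * (x : ZMod p) = 1 := Units.inv_mul x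
    linear_combination (-(x : ZMod p) - a) * hx
  rw [h1, map_mul, Weil_inv, MulChar.mul_apply]
  unfold chc
  rw [MulChar.ringHomComp_apply]
  simp only [eq_intCast, Int.cast_mul]
  ring

theorem bnd_half : Bnd 2 (1 / 2) := by
  intro p hp hp2 a b hb hab ψ
  rw [Weil_sum]
  set φ := ψ * chc p with hφ
  have hp0 : (0 : ℝ) < p := by exact_mod_cast hp.out.pos
  rw [← Real.sqrt_eq_rpow]
  have hS : ∀ n, 1 ≤ n → ‖ssum p a b φ n‖ ≤ (40 * p + 41) * √(p : ℝ) ^ n := by
    intro n hn
    have : Fintype (GaloisField p n) := Fintype.ofFinite _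
    have h1 := ext_eq_ssum p (GaloisField p n) a b φ
    rw [GaloisField.finrank p (by omega : n ≠ 0)] at h1
    have h2 := ext_bound p hp2 (GaloisField p n) a b hb hab φ
    rw [h1] at h2
    have h3 : (Fintype.card (GaloisField p n) : ℝ) = (p : ℝ) ^ n := by
      rw [← Nat.card_eq_fintype_card, GaloisField.card p n (by omega)]
      push_cast
      rfl
    rw [h3] at h2
    have h4 : √((p : ℝ) ^ n) = √(p : ℝ) ^ n := by
      rw [Real.sqrt_eq_iff_mul_self_eq (by positivity) (by positivity), ← mul_pow,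
        Real.mul_self_sqrt hp0.le]
    rwa [h4] at h2
  have h0 := csum_zero p a b φ
  have e1 : ssum p a b φ 1 = csum p a b φ 1 := by
    have := newton p a b φ 1
    rw [Finset.Icc_self, Finset.sum_singleton, Nat.sub_self, h0, mul_one, Nat.cast_one, one_mul] at this
    exact this.symm
  have e2 : 2 * csum p a b φ 2 = ssum p a b φ 1 * csum p a b φ 1 + ssum p a b φ 2 := by
    have := newton p a b φ 2
    rw [Finset.sum_Icc_succ_top (by norm_num), Finset.Icc_self, Finset.sum_singleton] at this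
    norm_num at this
    rw [h0, mul_one] at this
    exact this
  have e3 : ∀ n, 3 ≤ n → ssum p a b φ n + csum p a b φ 1 * ssum p a b φ (n - 1) +
      csum p a b φ 2 * ssum p a b φ (n - 2) = 0 := by
    intro n hn
    obtain ⟨m, rfl⟩ : ∃ m, n = m + 3 := ⟨n - 3, by omega⟩
    have hN := newton p a b φ (m + 3)
    rw [csum_vanish p hp2 a b hb hab φ (m + 3) (by omega), mul_zero,
      Finset.sum_Icc_succ_top (by omega), Finset.sum_Icc_succ_top (by omega),
      Finset.sum_Icc_succ_top (by omega)] at hN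
    have hz : ∑ k ∈ Finset.Icc 1 m, ssum p a b φ k * csum p a b φ (m + 2 + 1 - k) = 0 := by
      apply Finset.sum_eq_zero
      intro k hk
      rw [Finset.mem_Icc] at hk
      rw [csum_vanish p hp2 a b hb hab φ _ (by omega), mul_zero]
    have q1 : m + 3 - (m + 1) = 2 := by omega
    have q2 : m + 3 - (m + 1 + 1) = 1 := by omega
    have q3 : m + 3 - (m + 2 + 1) = 0 := by omega
    have q4 : m + 3 - 1 = m + 2 := by omega
    have q5 : m + 3 - 2 = m + 1 := by omega
    rw [hz, q1, q2, q3, h0, mul_one, zero_add] at hN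
    rw [q4, q5]
    linear_combination -hN
  have := growth (csum p a b φ 1) (csum p a b φ 2) (ssum p a b φ) e1 e2 e3 (√(p : ℝ)) (40 * p + 41)
    (Real.sqrt_pos.mpr hp0) hS
  have h5 := ext_eq_ssum p (ZMod p) a b φ
  rw [Module.finrank_self] at h5
  rw [h5, e1]
  exact this

end Pool.Agent.Lib.MP_6179b0_nt.W
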